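import Pool.Agent.H19.UH.Own

/-!
# Integrals over products of boxes
-/

open Finset Filter Topology MeasureTheory

namespace Pool.Agent.H19.HL

theorem append_mp (m n : ℕ) : MeasurePreserving
    (fun p : (Fin m → ℝ) × (Fin n → ℝ) => Fin.append p.1 p.2) (volume.prod volume) volume := by
  have h1 := volume_measurePreserving_sumPiEquivProdPi_symm (fun _ : Fin m ⊕ Fin n => ℝ)
  have h2 := volume_measurePreserving_piCongrLeft (fun _ : Fin (m + n) => ℝ) finSumFinEquiv
  have h3 := h2.comp h1
  have e : (⇑(MeasurableEquiv.piCongrLeft (fun _ : Fin (m + n) => ℝ) finSumFinEquiv) ∘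
      ⇑(MeasurableEquiv.sumPiEquivProdPi (fun _ : Fin m ⊕ Fin n => ℝ)).symm) =
      (fun p : (Fin m → ℝ) × (Fin n → ℝ) => Fin.append p.1 p.2) := by
    ext p i
    refine Fin.addCases (fun i => ?_) (fun i => ?_) i
    · have := Equiv.piCongrLeft_sumInl (fun _ : Fin (m + n) => ℝ) finSumFinEquiv p.1 p.2 i
      simp only [Fin.append_left]
      rw [finSumFinEquiv_apply_left] at this
      exact this
    · have := Equiv.piCongrLeft_sumInr (fun _ : Fin (m + n) => ℝ) finSumFinEquiv p.1 p.2 i
      simp only [Fin.append_right]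
      rw [finSumFinEquiv_apply_right] at this
      exact this
  rw [e] at h3
  exact h3

theorem append_mem_Icc {m n : ℕ} (a c : Fin m → ℝ) (b d : Fin n → ℝ) (x : Fin m → ℝ)
    (z : Fin n → ℝ) : Fin.append x z ∈ Set.Icc (Fin.append a b) (Fin.append c d) ↔
      x ∈ Set.Icc a c ∧ z ∈ Set.Icc b d := by
  simp only [Set.mem_Icc, Pi.le_def]
  constructor
  · rintro ⟨h1, h2⟩
    refine ⟨⟨fun i => ?_, fun i => ?_⟩, ⟨fun i => ?_, fun i => ?_⟩⟩
    · simpa using h1 (Fin.castAdd n i)
    · simpa using h2 (Fin.castAdd n i)
    · simpa using h1 (Fin.natAdd m i)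
    · simpa using h2 (Fin.natAdd m i)
  · rintro ⟨⟨h1, h2⟩, h3, h4⟩
    constructor
    · intro i
      refine Fin.addCases (fun i => ?_) (fun i => ?_) i
      · simpa using h1 i
      · simpa using h3 i
    · intro i
      refine Fin.addCases (fun i => ?_) (fun i => ?_) i
      · simpa using h2 i
      · simpa using h4 i

theorem fubini_append {m n : ℕ} (a c : Fin m → ℝ) (b d : Fin n → ℝ)
    (f : (Fin (m + n) → ℝ) → ℝ) (hf : Continuous f) :
    ∫ u in Set.Icc (Fin.append a b) (Fin.append c d), f u =
      ∫ x in Set.Icc a c, ∫ z in Set.Icc b d, f (Fin.append x z) := by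
  have hemb : MeasurableEmbedding (fun p : (Fin m → ℝ) × (Fin n → ℝ) => Fin.append p.1 p.2) :=
    (Fin.appendHomeomorph (X := ℝ) m n).measurableEmbedding
  have h1 := (append_mp m n).setIntegral_preimage_emb hemb f
    (Set.Icc (Fin.append a b) (Fin.append c d))
  have h2 : (fun p : (Fin m → ℝ) × (Fin n → ℝ) => Fin.append p.1 p.2) ⁻¹'
      (Set.Icc (Fin.append a b) (Fin.append c d)) = Set.Icc a c ×ˢ Set.Icc b d := by
    ext ⟨x, z⟩
    simp only [Set.mem_preimage, Set.mem_prod]
    exact append_mem_Icc a c b d x z
  rw [← h1, h2, setIntegral_prod]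
  have hc : Continuous (fun p : (Fin m → ℝ) × (Fin n → ℝ) => f (Fin.append p.1 p.2)) :=
    hf.comp (Fin.continuous_append m n)
  exact hc.continuousOn.integrableOn_compact (isCompact_Icc.prod isCompact_Icc)

/-- the fattened box -/
noncomputable def ww (r : ℕ) (a b : Fin r → ℝ) (h : ℝ) : ℝ :=
  ∫ u in Set.Icc (fun i => a i - h) (fun i => b i + h), kd r u

theorem ww_nonneg (r : ℕ) (a b : Fin r → ℝ) (h : ℝ) : 0 ≤ ww r a b h :=
  integral_nonneg (fun u => kd_nonneg r u)

theorem box2_le (r : ℕ) (a b : Fin r → ℝ) (p h : ℝ) (hh : 0 ≤ h) :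
    ∫ u in Set.Icc (Fin.append (Fin.cons p (fun i => a i + p) : Fin (r + 1) → ℝ) a)
      (Fin.append (Fin.cons (p + h) (fun i => b i + (p + h)) : Fin (r + 1) → ℝ) b),
      kd (r + 1 + r) u ≤ h * (ww r a b h * ∫ u in Set.Icc a b, kd r u) := by
  rw [fubini_append _ _ _ _ _ (kd_continuous _)]
  set w : ℝ := ∫ u in Set.Icc a b, kd r u with hw
  have hw0 : 0 ≤ w := integral_nonneg (fun u => kd_nonneg r u)
  have hc1 : Continuous (fun x : Fin (r + 1) → ℝ => kd r (fun i => x i.succ - x 0)) := by
    apply (kd_continuous r).comp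
    apply continuous_pi
    intro i
    exact (continuous_apply i.succ).sub (continuous_apply 0)
  -- the inner integral
  have h1 : ∀ x : Fin (r + 1) → ℝ, ∫ z in Set.Icc a b, kd (r + 1 + r) (Fin.append x z) ≤
      kd r (fun i => x i.succ - x 0) * w := by
    intro x
    rw [hw, ← integral_const_mul]
    apply setIntegral_mono
    · have : Continuous (fun z : Fin r → ℝ => kd (r + 1 + r) (Fin.append x z)) :=
        (kd_continuous _).comp ((Fin.continuous_append (r + 1) r).comp
          (continuous_const.prodMk continuous_id))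
      exact this.continuousOn.integrableOn_compact isCompact_Icc
    · exact (continuous_const.mul (kd_continuous r)).continuousOn.integrableOn_compact
        isCompact_Icc
    · intro z
      have h2 := kd_append_le r (x 0) (Fin.tail x) z
      rw [Fin.cons_self_tail] at h2
      exact h2
  have hc2 : Continuous (fun x : Fin (r + 1) → ℝ =>
      ∫ z in Set.Icc a b, kd (r + 1 + r) (Fin.append x z)) := by
    apply continuous_parametric_integral_of_continuous
    · exact (kd_continuous _).comp (Fin.continuous_append (r + 1) r)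
    · exact isCompact_Icc
  have h2 : ∫ x in Set.Icc (Fin.cons p (fun i => a i + p) : Fin (r + 1) → ℝ)
      (Fin.cons (p + h) (fun i => b i + (p + h))),
      ∫ z in Set.Icc a b, kd (r + 1 + r) (Fin.append x z) ≤
      ∫ x in Set.Icc (Fin.cons p (fun i => a i + p) : Fin (r + 1) → ℝ)
      (Fin.cons (p + h) (fun i => b i + (p + h))), kd r (fun i => x i.succ - x 0) * w := by
    apply setIntegral_mono
    · exact hc2.continuousOn.integrableOn_compact isCompact_Icc
    · exact (hc1.mul continuous_const).continuousOn.integrableOn_compact isCompact_Icc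
    · exact h1
  refine h2.trans ?_
  rw [integral_mul_const, fubini r _ _ _ _ _ hc1]
  have h3 : ∀ v ∈ Set.Icc p (p + h), ∫ u in Set.Icc (fun i => a i + p) (fun i => b i + (p + h)),
      kd r (fun i => (Fin.cons v u : Fin (r + 1) → ℝ) i.succ -
        (Fin.cons v u : Fin (r + 1) → ℝ) 0) ≤ ww r a b h := by
    intro v hv
    simp only [Fin.cons_succ, Fin.cons_zero]
    have h4 : ∫ u in Set.Icc (fun i => a i + p) (fun i => b i + (p + h)),
        kd r (fun i => u i - v) =
        ∫ u in (fun u : Fin r → ℝ => u + (fun _ => v)) ⁻¹'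
          (Set.Icc (fun i => a i + p) (fun i => b i + (p + h))), kd r u := by
      have h5 := (measurePreserving_add_right (volume : Measure (Fin r → ℝ))
        (fun _ => v)).setIntegral_preimage_emb (measurableEmbedding_addRight _)
        (fun u => kd r (fun i => u i - v)) (Set.Icc (fun i => a i + p) (fun i => b i + (p + h)))
      rw [← h5]
      apply integral_congr_ae
      refine Eventually.of_forall (fun u => ?_)
      simp
    rw [h4]
    unfold ww
    apply setIntegral_mono_set
    · exact (kd_continuous r).continuousOn.integrableOn_compact isCompact_Icc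
    · exact Eventually.of_forall (fun u => kd_nonneg r u)
    · apply LE.le.eventuallyLE
      intro u hu
      simp only [Set.mem_preimage, Set.mem_Icc, Pi.le_def, Pi.add_apply] at hu ⊢
      refine ⟨fun i => ?_, fun i => ?_⟩
      · have := hu.1 i
        linarith [hv.2]
      · have := hu.2 i
        linarith [hv.1]
  have h6 : ∫ v in Set.Icc p (p + h), ∫ u in Set.Icc (fun i => a i + p)
      (fun i => b i + (p + h)), kd r (fun i => (Fin.cons v u : Fin (r + 1) → ℝ) i.succ -
        (Fin.cons v u : Fin (r + 1) → ℝ) 0) ≤ h * ww r a b h := by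
    calc _ ≤ ∫ _ in Set.Icc p (p + h), ww r a b h := by
          apply setIntegral_mono_on
          · apply Continuous.integrableOn_Icc
            apply continuous_parametric_integral_of_continuous
            · exact hc1.comp (cons_cont r)
            · exact isCompact_Icc
          · exact integrableOn_const isCompact_Icc.measure_lt_top.ne
          · exact measurableSet_Icc
          · exact h3
      _ = h * ww r a b h := by
          rw [setIntegral_const, Real.volume_real_Icc, smul_eq_mul, max_eq_left (by linarith)]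
          ring
  calc _ ≤ h * ww r a b h * w := mul_le_mul_of_nonneg_right h6 hw0
    _ = _ := by ring

end Pool.Agent.H19.HL
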