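import Pool.Agent.H19.UH.Repro

/-!
# The defect of the sine kernel determinants
-/

open Finset Filter Topology MeasureTheory Matrix

namespace Pool.Agent.H19.HL

theorem sk_cons_formula {m : ℕ} (x : Fin m → ℝ) (hx : (sk x).det ≠ 0) (v : ℝ) :
    (sk (Fin.cons v x : Fin (m + 1) → ℝ)).det = (sk x).det * (1 - ∑ a, ∑ b,
      (sk x)⁻¹ a b * (Real.sinc (Real.pi * (v - x a)) * Real.sinc (Real.pi * (v - x b)))) := by
  have hu : IsUnit (sk x).det := isUnit_iff_ne_zero.mpr hx
  rw [sk_cons_eq, skt_sum]
  have e1 : skt (fun _ : Unit => v) = 1 := by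
    ext i j
    simp [skt]
  rw [e1, det_fromBlocks_one₁₁]
  set k : Fin m → ℝ := fun a => Real.sinc (Real.pi * (v - x a)) with hk
  have e2 : skt x - (of fun (i : Unit) (j : Fin m) =>
      Real.sinc (Real.pi * ((fun _ : Unit => v) i - x j)))ᵀ *
      (of fun (i : Unit) (j : Fin m) => Real.sinc (Real.pi * ((fun _ : Unit => v) i - x j))) =
      sk x + replicateCol Unit (-k) * replicateRow Unit k := by
    ext i j
    simp [skt, sk, Matrix.mul_apply, hk]
    ring
  rw [e2, det_add_replicateCol_mul_replicateRow hu]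
  congr 1
  rw [det_unique, Matrix.add_apply, one_apply_eq, Matrix.mul_apply]
  simp only [Matrix.mul_apply, replicateRow_apply, replicateCol_apply, Pi.neg_apply]
  rw [sub_eq_add_neg, ← Finset.sum_neg_distrib]
  congr 1
  simp_rw [Finset.sum_mul, ← Finset.sum_neg_distrib]
  rw [Finset.sum_comm]
  apply Finset.sum_congr rfl
  intro a _
  apply Finset.sum_congr rfl
  intro b _
  ring

end Pool.Agent.H19.HL
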