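import Pool.Agent.H19.UH.Defect

/-!
# The integral of the defect of the sine kernel determinants
-/

open Finset Filter Topology MeasureTheory Matrix

namespace Pool.Agent.H19.HL

theorem defect_aux {m : ℕ} (x : Fin m → ℝ) :
    Integrable (fun v : ℝ => (sk x).det - (sk (Fin.cons v x : Fin (m + 1) → ℝ)).det) ∧
    ∫ v : ℝ, ((sk x).det - (sk (Fin.cons v x : Fin (m + 1) → ℝ)).det) = m * (sk x).det := by
  rcases eq_or_ne (sk x).det 0 with h0 | h0
  · have h1 : ∀ v : ℝ, (sk x).det - (sk (Fin.cons v x : Fin (m + 1) → ℝ)).det = 0 := by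
      intro v
      have h2 := sk_cons_le v x
      have h3 := sk_det_nonneg (Fin.cons v x : Fin (m + 1) → ℝ)
      linarith
    simp_rw [h1, h0]
    simp
  · have h1 : ∀ v : ℝ, (sk x).det - (sk (Fin.cons v x : Fin (m + 1) → ℝ)).det =
        (sk x).det * ∑ a, ∑ b, (sk x)⁻¹ a b *
          (Real.sinc (Real.pi * (v - x a)) * Real.sinc (Real.pi * (v - x b))) := by
      intro v
      rw [sk_cons_formula x h0 v]
      ring
    simp_rw [h1]
    have hi : ∀ a b, Integrable (fun v : ℝ => (sk x)⁻¹ a b *
          (Real.sinc (Real.pi * (v - x a)) * Real.sinc (Real.pi * (v - x b)))) :=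
      fun a b => (repro_integrable (x a) (x b)).const_mul _
    have hi2 : ∀ a, Integrable (fun v : ℝ => ∑ b, (sk x)⁻¹ a b *
          (Real.sinc (Real.pi * (v - x a)) * Real.sinc (Real.pi * (v - x b)))) :=
      fun a => integrable_finsetSum _ (fun b _ => hi a b)
    refine ⟨(integrable_finsetSum _ (fun a _ => hi2 a)).const_mul _, ?_⟩
    rw [integral_const_mul, integral_finsetSum _ (fun a _ => hi2 a)]
    have h2 : ∀ a, ∫ v : ℝ, ∑ b, (sk x)⁻¹ a b *
          (Real.sinc (Real.pi * (v - x a)) * Real.sinc (Real.pi * (v - x b))) = 1 := by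
      intro a
      rw [integral_finsetSum _ (fun b _ => hi a b)]
      simp_rw [integral_const_mul, repro]
      have h3 : ((sk x)⁻¹ * (sk x)) a a = 1 := by
        rw [nonsing_inv_mul (sk x) (isUnit_iff_ne_zero.mpr h0), one_apply_eq]
      rw [← h3, Matrix.mul_apply]
      apply Finset.sum_congr rfl
      intro b _
      have h4 : sk x b a = Real.sinc (Real.pi * (x a - x b)) := by
        simp only [sk, of_apply]
        rw [← Real.sinc_neg]
        congr 1
        ring
      rw [h4]
    simp_rw [h2]
    simp
    ring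

/-- the truncated defect -/
noncomputable def DD (r : ℕ) (s : ℝ) (u : Fin r → ℝ) : ℝ :=
  ∫ v in Set.Icc (-s) s, (kd r u - kd (r + 1) (Fin.cons v u))

theorem kd_defect_nonneg (r : ℕ) (v : ℝ) (u : Fin r → ℝ) :
    0 ≤ kd r u - kd (r + 1) (Fin.cons v u) := by
  have := kd_cons_le r v u
  linarith

theorem kd_defect (r : ℕ) (u : Fin r → ℝ) :
    Integrable (fun v : ℝ => kd r u - kd (r + 1) (Fin.cons v u)) ∧
    ∫ v : ℝ, (kd r u - kd (r + 1) (Fin.cons v u)) = (r + 1) * kd r u := by
  have h := defect_aux (Fin.snoc u 0 : Fin (r + 1) → ℝ)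
  simp_rw [kd_cons]
  unfold kd
  push_cast at h
  exact h

theorem DD_nonneg (r : ℕ) (s : ℝ) (u : Fin r → ℝ) : 0 ≤ DD r s u :=
  integral_nonneg (fun v => kd_defect_nonneg r v u)

theorem DD_le (r : ℕ) (s : ℝ) (u : Fin r → ℝ) : DD r s u ≤ (r + 1) := by
  obtain ⟨h1, h2⟩ := kd_defect r u
  have h3 : DD r s u ≤ (r + 1) * kd r u := by
    rw [← h2]
    exact setIntegral_le_integral h1 (Eventually.of_forall (fun v => kd_defect_nonneg r v u))
  have h4 := kd_le r u
  have h5 : (0 : ℝ) ≤ r + 1 := by positivity
  nlinarith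

theorem DD_tendsto (r : ℕ) (u : Fin r → ℝ) :
    Tendsto (fun s => DD r s u) atTop (𝓝 ((r + 1) * kd r u)) := by
  obtain ⟨h1, h2⟩ := kd_defect r u
  rw [← h2]
  have h3 := intervalIntegral_tendsto_integral (l := (atTop : Filter ℝ)) (a := fun s => -s)
    (b := fun s => s) h1 tendsto_neg_atTop_atBot tendsto_id
  refine h3.congr' ?_
  filter_upwards [eventually_ge_atTop 0] with s hs
  unfold DD
  rw [integral_Icc_eq_integral_Ioc, ← intervalIntegral.integral_of_le (by linarith)]

theorem DD_continuous (r : ℕ) (s : ℝ) : Continuous (DD r s) := by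
  unfold DD
  apply continuous_parametric_integral_of_continuous
  · apply Continuous.sub
    · exact (kd_continuous r).comp continuous_fst
    · exact (kd_continuous (r + 1)).comp ((cons_cont r).comp continuous_swap)
  · exact isCompact_Icc

theorem box_defect (r : ℕ) (a b : Fin r → ℝ) (s : ℝ) :
    ∫ v in Set.Icc (-s) s, ((∫ u in Set.Icc a b, kd r u) - GG r a b v) =
      ∫ u in Set.Icc a b, DD r s u := by
  have h1 : ∀ v, (∫ u in Set.Icc a b, kd r u) - GG r a b v =
      ∫ u in Set.Icc a b, (kd r u - kd (r + 1) (Fin.cons v u)) := by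
    intro v
    unfold GG
    rw [integral_sub]
    · exact (kd_continuous r).continuousOn.integrableOn_compact isCompact_Icc
    · exact ((kd_continuous (r + 1)).comp
            (cons_cont_right r v)).continuousOn.integrableOn_compact isCompact_Icc
  simp_rw [h1]
  unfold DD
  rw [integral_integral_swap]
  rw [Measure.prod_restrict]
  have hc : Continuous (Function.uncurry (fun (v : ℝ) (u : Fin r → ℝ) =>
      kd r u - kd (r + 1) (Fin.cons v u))) := by
    apply Continuous.sub
    · exact (kd_continuous r).comp continuous_snd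
    · exact (kd_continuous (r + 1)).comp (cons_cont r)
  exact hc.continuousOn.integrableOn_compact (isCompact_Icc.prod isCompact_Icc)

theorem box_defect_tendsto (r : ℕ) (a b : Fin r → ℝ) :
    Tendsto (fun s : ℝ => ∫ v in Set.Icc (-s) s, ((∫ u in Set.Icc a b, kd r u) - GG r a b v))
      atTop (𝓝 ((r + 1) * ∫ u in Set.Icc a b, kd r u)) := by
  simp_rw [box_defect]
  rw [← integral_const_mul]
  apply tendsto_integral_filter_of_dominated_convergence (fun _ => ((r : ℝ) + 1))
  · exact Eventually.of_forall (fun s => (DD_continuous r s).aestronglyMeasurable)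
  · exact Eventually.of_forall (fun s => Eventually.of_forall (fun u => by
      rw [Real.norm_of_nonneg (DD_nonneg r s u)]
      exact DD_le r s u))
  · exact integrableOn_const isCompact_Icc.measure_lt_top.ne
  · exact Eventually.of_forall (fun u => DD_tendsto r u)

theorem GG_le_w (r : ℕ) (a b : Fin r → ℝ) (v : ℝ) : GG r a b v ≤ ∫ u in Set.Icc a b, kd r u := by
  unfold GG
  apply setIntegral_mono
  · exact ((kd_continuous (r + 1)).comp
            (cons_cont_right r v)).continuousOn.integrableOn_compact isCompact_Icc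
  · exact (kd_continuous r).continuousOn.integrableOn_compact isCompact_Icc
  · intro u
    exact kd_cons_le r v u

/-- the tent function -/
noncomputable def wt (R d : ℝ) : ℝ := max (R - |d|) 0

theorem wt_nonneg (R d : ℝ) : 0 ≤ wt R d := le_max_right _ _

theorem wt_le {R : ℝ} (hR : 0 ≤ R) (d : ℝ) : wt R d ≤ R := by
  unfold wt
  apply max_le _ hR
  linarith [abs_nonneg d]

theorem wt_continuous (R : ℝ) : Continuous (wt R) := by
  unfold wt
  fun_prop

theorem wt_lip (R d e : ℝ) : |wt R d - wt R e| ≤ |d - e| := by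
  unfold wt
  have h1 : |max (R - |d|) 0 - max (R - |e|) 0| ≤ |(R - |d|) - (R - |e|)| := by
    have := abs_max_sub_max_le_max (R - |d|) 0 (R - |e|) 0
    simpa using this
  refine h1.trans ?_
  have h2 : (R - |d|) - (R - |e|) = |e| - |d| := by ring
  rw [h2, abs_sub_comm d e]
  exact abs_abs_sub_abs_le_abs_sub e d

theorem wt_neg (R d : ℝ) : wt R (-d) = wt R d := by
  unfold wt
  rw [abs_neg]

theorem wt_zero_of (R d : ℝ) (h : R ≤ |d|) : wt R d = 0 := by
  unfold wt
  exact max_eq_right (by linarith)

theorem wt_integral {R : ℝ} (hR : 0 ≤ R) : ∫ v in Set.Icc (-R) R, wt R v = R ^ 2 := by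
  have h1 : ∫ v in Set.Icc (-R) R, wt R v = ∫ v in (-R)..R, (R - |v|) := by
    rw [integral_Icc_eq_integral_Ioc, ← intervalIntegral.integral_of_le (by linarith)]
    apply intervalIntegral.integral_congr
    intro v hv
    rw [Set.uIcc_of_le (by linarith)] at hv
    have : |v| ≤ R := abs_le.mpr hv
    unfold wt
    exact max_eq_left (by linarith)
  rw [h1, intervalIntegral.integral_sub intervalIntegrable_const
    (continuous_abs.intervalIntegrable _ _), intervalIntegral.integral_const]
  have h2 : ∫ v in (-R)..R, |v| = R ^ 2 := by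
    rw [← intervalIntegral.integral_add_adjacent_intervals
      (continuous_abs.intervalIntegrable (-R) 0) (continuous_abs.intervalIntegrable 0 R)]
    have h3 : ∫ v in (-R)..0, |v| = ∫ v in (-R)..0, -v := by
      apply intervalIntegral.integral_congr
      intro v hv
      rw [Set.uIcc_of_le (by linarith)] at hv
      exact abs_of_nonpos hv.2
    have h4 : ∫ v in (0)..R, |v| = ∫ v in (0)..R, v := by
      apply intervalIntegral.integral_congr
      intro v hv
      rw [Set.uIcc_of_le hR] at hv
      exact abs_of_nonneg hv.1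
    rw [h3, h4, intervalIntegral.integral_neg, integral_id, integral_id]
    ring
  rw [h2, smul_eq_mul]
  ring

/-- the deterministic estimate -/
theorem wt_GG (r : ℕ) (a b : Fin r → ℝ) (η : ℝ) (hη : 0 < η) :
    ∃ R0 : ℝ, 0 < R0 ∧ ∀ R, R0 ≤ R → ∫ v in Set.Icc (-R) R, wt R v * GG r a b v ≤
      (∫ u in Set.Icc a b, kd r u) * R ^ 2 - (r + 1) * (∫ u in Set.Icc a b, kd r u) * R +
        η * R := by
  set w : ℝ := ∫ u in Set.Icc a b, kd r u with hw
  have hw0 : 0 ≤ w := integral_nonneg (fun u => kd_nonneg r u)
  have h1 := (box_defect_tendsto r a b).eventually_const_lt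
    (show (r + 1) * w - η / 2 < (r + 1) * w by linarith)
  obtain ⟨s, hs1, hs2⟩ := ((eventually_gt_atTop (0 : ℝ)).and h1).exists
  refine ⟨max s (2 * s * (r + 1) * w / η), lt_max_of_lt_left hs1, fun R hR => ?_⟩
  have hsR : s ≤ R := (le_max_left _ _).trans hR
  have hR2 : 2 * s * (r + 1) * w / η ≤ R := (le_max_right _ _).trans hR
  rw [div_le_iff₀ hη] at hR2
  have hR0 : 0 < R := lt_of_lt_of_le hs1 hsR
  have hGc := GG_continuous r a b
  have i1 : IntegrableOn (fun v => wt R v * (w - GG r a b v)) (Set.Icc (-R) R) :=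
    ((wt_continuous R).mul (continuous_const.sub hGc)).continuousOn.integrableOn_compact
      isCompact_Icc
  have hn : ∀ v, 0 ≤ w - GG r a b v := fun v => by
    have := GG_le_w r a b v
    linarith
  have e1 : ∫ v in Set.Icc (-R) R, wt R v * GG r a b v =
      w * R ^ 2 - ∫ v in Set.Icc (-R) R, wt R v * (w - GG r a b v) := by
    have h3 : ∀ v, wt R v * GG r a b v = w * wt R v - wt R v * (w - GG r a b v) := by
      intro v; ring
    simp_rw [h3]
    rw [integral_sub _ i1, integral_const_mul, wt_integral hR0.le]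
    exact (continuous_const.mul (wt_continuous R)).continuousOn.integrableOn_compact
      isCompact_Icc
  have e2 : (R - s) * ∫ v in Set.Icc (-s) s, (w - GG r a b v) ≤
      ∫ v in Set.Icc (-R) R, wt R v * (w - GG r a b v) := by
    calc (R - s) * ∫ v in Set.Icc (-s) s, (w - GG r a b v)
        = ∫ v in Set.Icc (-s) s, (R - s) * (w - GG r a b v) := by rw [integral_const_mul]
      _ ≤ ∫ v in Set.Icc (-s) s, wt R v * (w - GG r a b v) := by
          apply setIntegral_mono_on
          · exact (continuous_const.mul (continuous_const.sub hGc)).continuousOn.integrableOn_compact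
              isCompact_Icc
          · exact ((wt_continuous R).mul
              (continuous_const.sub hGc)).continuousOn.integrableOn_compact isCompact_Icc
          · exact measurableSet_Icc
          · intro v hv
            apply mul_le_mul_of_nonneg_right _ (hn v)
            unfold wt
            refine le_trans ?_ (le_max_left _ _)
            have : |v| ≤ s := abs_le.mpr hv
            linarith
      _ ≤ _ := by
          apply setIntegral_mono_set i1
          · exact Eventually.of_forall (fun v => mul_nonneg (wt_nonneg R v) (hn v))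
          · exact (Set.Icc_subset_Icc (by linarith) hsR).eventuallyLE
  rw [e1]
  have h5 : (R - s) * ((r + 1) * w - η / 2) ≤
      (R - s) * ∫ v in Set.Icc (-s) s, (w - GG r a b v) :=
    mul_le_mul_of_nonneg_left hs2.le (by linarith)
  nlinarith

end Pool.Agent.H19.HL
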