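import Pool.Agent.H19.HL.Box

/-!
# Fischer's inequality for the sine kernel
-/

open Finset Filter Topology MeasureTheory Matrix

namespace Pool.Agent.H19.HL

section general

variable {m n : Type*} [Fintype m] [Fintype n] [DecidableEq m] [DecidableEq n]

theorem det_le_one_of_trace (A : Matrix n n ℝ) (hp : A.PosSemidef)
    (ht : A.trace = Fintype.card n) : A.det ≤ 1 := by
  have hH := hp.isHermitian
  have h1 : A.det = ∏ i, hH.eigenvalues i := by
    have := hH.det_eq_prod_eigenvalues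
    simpa using this
  have h2 : A.trace = ∑ i, hH.eigenvalues i := by
    have := hH.trace_eq_sum_eigenvalues
    simpa using this
  rw [h1]
  calc ∏ i, hH.eigenvalues i ≤ ∏ i, Real.exp (hH.eigenvalues i - 1) := by
        apply Finset.prod_le_prod
        · intro i _
          exact hp.eigenvalues_nonneg i
        · intro i _
          have := Real.add_one_le_exp (hH.eigenvalues i - 1)
          linarith
    _ = 1 := by
        rw [← Real.exp_sum, Finset.sum_sub_distrib, ← h2, ht]
        simp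

open scoped MatrixOrder in
theorem exists_factor (A : Matrix n n ℝ) (h : A.PosSemidef) : ∃ X : Matrix n n ℝ, A = Xᵀ * X := by
  obtain ⟨X, hX⟩ := CStarAlgebra.nonneg_iff_eq_star_mul_self.mp h.nonneg
  refine ⟨X, ?_⟩
  rw [hX, star_eq_conjTranspose, conjTranspose_eq_transpose_of_trivial]

theorem fischer_pos (A : Matrix m m ℝ) (B : Matrix m n ℝ) (C : Matrix n n ℝ)
    (h : (fromBlocks A B Bᵀ C).PosDef) :
    (fromBlocks A B Bᵀ C).det ≤ A.det * C.det := by
  have hA : A.PosDef := by
    have := h.submatrix (e := (Sum.inl : m → m ⊕ n)) Sum.inl_injective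
    have e : (fromBlocks A B Bᵀ C).submatrix Sum.inl Sum.inl = A := by
      ext i j; simp
    rwa [e] at this
  have hC : C.PosDef := by
    have := h.submatrix (e := (Sum.inr : n → m ⊕ n)) Sum.inr_injective
    have e : (fromBlocks A B Bᵀ C).submatrix Sum.inr Sum.inr = C := by
      ext i j; simp
    rwa [e] at this
  obtain ⟨X, hX⟩ := exists_factor A hA.posSemidef
  obtain ⟨Y, hY⟩ := exists_factor C hC.posSemidef
  have hXd : A.det = X.det * X.det := by
    rw [hX, det_mul, det_transpose]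
  have hYd : C.det = Y.det * Y.det := by
    rw [hY, det_mul, det_transpose]
  have hX0 : X.det ≠ 0 := by
    intro h0
    have := hA.det_pos
    rw [hXd, h0] at this
    simp at this
  have hY0 : Y.det ≠ 0 := by
    intro h0
    have := hC.det_pos
    rw [hYd, h0] at this
    simp at this
  have hXu : IsUnit X.det := isUnit_iff_ne_zero.mpr hX0
  have hYu : IsUnit Y.det := isUnit_iff_ne_zero.mpr hY0
  set P : Matrix (m ⊕ n) (m ⊕ n) ℝ := fromBlocks X⁻¹ 0 0 Y⁻¹ with hP
  have h1 : (Pᴴ * fromBlocks A B Bᵀ C * P).PosSemidef :=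
    h.posSemidef.conjTranspose_mul_mul_same P
  have hAX : (X⁻¹)ᵀ * A * X⁻¹ = 1 := by
    rw [hX, ← Matrix.mul_assoc, Matrix.mul_assoc _ X X⁻¹,
      mul_nonsing_inv X hXu, Matrix.mul_one, ← transpose_mul, mul_nonsing_inv X hXu,
      transpose_one]
  have hCY : (Y⁻¹)ᵀ * C * Y⁻¹ = 1 := by
    rw [hY, ← Matrix.mul_assoc, Matrix.mul_assoc _ Y Y⁻¹,
      mul_nonsing_inv Y hYu, Matrix.mul_one, ← transpose_mul, mul_nonsing_inv Y hYu,
      transpose_one]
  have h2 : Pᴴ * fromBlocks A B Bᵀ C * P =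
      fromBlocks 1 ((X⁻¹)ᵀ * B * Y⁻¹) ((Y⁻¹)ᵀ * Bᵀ * X⁻¹) 1 := by
    rw [conjTranspose_eq_transpose_of_trivial, hP, fromBlocks_transpose, fromBlocks_multiply,
      fromBlocks_multiply]
    simp only [transpose_zero, Matrix.zero_mul, Matrix.mul_zero, add_zero, zero_add, hAX, hCY]
  have h3 : (Pᴴ * fromBlocks A B Bᵀ C * P).det ≤ 1 := by
    apply det_le_one_of_trace _ h1
    rw [h2]
    simp [Matrix.trace, Fintype.sum_sum_type]
  have h4 : (Pᴴ * fromBlocks A B Bᵀ C * P).det * (A.det * C.det) =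
      (fromBlocks A B Bᵀ C).det := by
    rw [det_mul, det_mul, conjTranspose_eq_transpose_of_trivial, det_transpose, hP,
      det_fromBlocks_zero₂₁, det_nonsing_inv, det_nonsing_inv, Ring.inverse_eq_inv', hXd, hYd]
    field_simp
  have h5 : 0 ≤ A.det * C.det := mul_nonneg hA.det_pos.le hC.det_pos.le
  calc (fromBlocks A B Bᵀ C).det = (Pᴴ * fromBlocks A B Bᵀ C * P).det * (A.det * C.det) := h4.symm
    _ ≤ 1 * (A.det * C.det) := mul_le_mul_of_nonneg_right h3 h5
    _ = _ := one_mul _

/-- **Fischer's inequality.** -/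
theorem fischer (A : Matrix m m ℝ) (B : Matrix m n ℝ) (C : Matrix n n ℝ)
    (h : (fromBlocks A B Bᵀ C).PosSemidef) :
    (fromBlocks A B Bᵀ C).det ≤ A.det * C.det := by
  have h1 : ∀ ε : ℝ, 0 < ε → (fromBlocks (A + ε • 1) B Bᵀ (C + ε • 1)).det ≤
      (A + ε • 1).det * (C + ε • 1).det := by
    intro ε hε
    apply fischer_pos
    have e : fromBlocks (A + ε • (1 : Matrix m m ℝ)) B Bᵀ (C + ε • (1 : Matrix n n ℝ)) =
        fromBlocks A B Bᵀ C + ε • (1 : Matrix (m ⊕ n) (m ⊕ n) ℝ) := by
      rw [← fromBlocks_one, fromBlocks_smul, fromBlocks_add]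
      simp
    rw [e]
    exact Matrix.PosDef.posSemidef_add h (Matrix.PosDef.one.smul hε)
  have c1 : Continuous (fun ε : ℝ => (fromBlocks (A + ε • 1) B Bᵀ (C + ε • 1)).det) := by
    apply Continuous.matrix_det
    apply Continuous.matrix_fromBlocks
    · exact continuous_const.add (continuous_id.smul continuous_const)
    · exact continuous_const
    · exact continuous_const
    · exact continuous_const.add (continuous_id.smul continuous_const)
  have c2 : Continuous (fun ε : ℝ => (A + ε • 1).det * (C + ε • 1).det) := by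
    apply Continuous.mul
    · exact (continuous_const.add (continuous_id.smul continuous_const)).matrix_det
    · exact (continuous_const.add (continuous_id.smul continuous_const)).matrix_det
  have t1 := (c1.tendsto 0).mono_left (nhdsWithin_le_nhds (s := Set.Ioi (0 : ℝ)))
  have t2 := (c2.tendsto 0).mono_left (nhdsWithin_le_nhds (s := Set.Ioi (0 : ℝ)))
  have h2 := le_of_tendsto_of_tendsto t1 t2 (by
    filter_upwards [self_mem_nhdsWithin] with ε hε
    exact h1 ε hε)
  simpa using h2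

end general

/-- the sine kernel matrix on any index type -/
noncomputable def skt {ι : Type*} (w : ι → ℝ) : Matrix ι ι ℝ :=
  Matrix.of fun i j => Real.sinc (Real.pi * (w i - w j))

theorem skt_fin {n : ℕ} (w : Fin n → ℝ) : skt w = sk w := rfl

theorem skt_comp {ι κ : Type*} [Fintype ι] [Fintype κ] [DecidableEq ι] [DecidableEq κ]
    (e : ι ≃ κ) (w : κ → ℝ) : (skt (w ∘ e)).det = (skt w).det := by
  have : skt (w ∘ e) = (skt w).submatrix e e := by
    ext i j
    simp [skt]
  rw [this, det_submatrix_equiv_self]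

theorem skt_shift {ι : Type*} (w : ι → ℝ) (c : ℝ) : skt (fun i => w i + c) = skt w := by
  ext i j
  simp [skt]

theorem skt_posSemidef {ι : Type*} [Fintype ι] [DecidableEq ι] (w : ι → ℝ) :
    (skt w).PosSemidef := by
  have h1 := sk_posSemidef (w ∘ (Fintype.equivFin ι).symm)
  have h2 := h1.submatrix (Fintype.equivFin ι)
  have e : (sk (w ∘ (Fintype.equivFin ι).symm)).submatrix (Fintype.equivFin ι)
      (Fintype.equivFin ι) = skt w := by
    ext i j
    simp [sk, skt]
  rwa [e] at h2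

theorem skt_sum {ι κ : Type*} [Fintype ι] [Fintype κ] [DecidableEq ι] [DecidableEq κ]
    (x : ι → ℝ) (z : κ → ℝ) : skt (Sum.elim x z) =
      fromBlocks (skt x) (of fun i j => Real.sinc (Real.pi * (x i - z j)))
        (of fun i j => Real.sinc (Real.pi * (x i - z j)))ᵀ (skt z) := by
  ext i j
  rcases i with i | i <;> rcases j with j | j
  · simp [skt]
  · simp [skt]
  · simp only [skt, of_apply, Sum.elim_inr, Sum.elim_inl, fromBlocks_apply₂₁, transpose_apply]
    rw [← Real.sinc_neg]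
    congr 1
    ring
  · simp [skt]

theorem skt_fischer {ι κ : Type*} [Fintype ι] [Fintype κ] [DecidableEq ι] [DecidableEq κ]
    (x : ι → ℝ) (z : κ → ℝ) : (skt (Sum.elim x z)).det ≤ (skt x).det * (skt z).det := by
  have h := skt_posSemidef (Sum.elim x z)
  rw [skt_sum] at h ⊢
  exact fischer _ _ _ h

theorem skt_det_nonneg {ι : Type*} [Fintype ι] [DecidableEq ι] (w : ι → ℝ) : 0 ≤ (skt w).det :=
  (skt_posSemidef w).det_nonneg

theorem sk_append_le {m n : ℕ} (x : Fin m → ℝ) (z : Fin n → ℝ) :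
    (sk (Fin.append x z)).det ≤ (sk x).det * (sk z).det := by
  have h := skt_comp finSumFinEquiv (Fin.append x z)
  have e : Fin.append x z ∘ finSumFinEquiv = Sum.elim x z := by
    ext i
    rcases i with i | i
    · simp
    · simp
  rw [e] at h
  rw [← skt_fin, ← h]
  exact skt_fischer x z

/-- the index equivalence for `Fin.cons` -/
def eCons (n : ℕ) : Unit ⊕ Fin n ≃ Fin (n + 1) where
  toFun := Sum.elim (fun _ => 0) Fin.succ
  invFun := Fin.cases (Sum.inl ()) Sum.inr
  left_inv := by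
    rintro (i | i)
    · simp
    · simp
  right_inv := by
    intro i
    refine Fin.cases ?_ (fun i => ?_) i
    · simp
    · simp

/-- the index equivalence for `Fin.snoc` -/
def eSnoc (n : ℕ) : Unit ⊕ Fin n ≃ Fin (n + 1) where
  toFun := Sum.elim (fun _ => Fin.last n) Fin.castSucc
  invFun := Fin.lastCases (Sum.inl ()) Sum.inr
  left_inv := by
    rintro (i | i)
    · simp
    · simp
  right_inv := by
    intro i
    refine Fin.lastCases ?_ (fun i => ?_) i
    · simp
    · simp

theorem sk_cons_eq {n : ℕ} (v : ℝ) (x : Fin n → ℝ) :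
    (sk (Fin.cons v x : Fin (n + 1) → ℝ)).det = (skt (Sum.elim (fun _ : Unit => v) x)).det := by
  have h := skt_comp (eCons n) (Fin.cons v x : Fin (n + 1) → ℝ)
  have e : (Fin.cons v x : Fin (n + 1) → ℝ) ∘ eCons n = Sum.elim (fun _ : Unit => v) x := by
    ext i
    rcases i with i | i
    · simp [eCons]
    · simp [eCons]
  rw [e] at h
  exact h.symm

theorem sk_snoc_eq {n : ℕ} (v : ℝ) (x : Fin n → ℝ) :
    (sk (Fin.snoc x v : Fin (n + 1) → ℝ)).det = (skt (Sum.elim (fun _ : Unit => v) x)).det := by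
  have h := skt_comp (eSnoc n) (Fin.snoc x v : Fin (n + 1) → ℝ)
  have e : (Fin.snoc x v : Fin (n + 1) → ℝ) ∘ eSnoc n = Sum.elim (fun _ : Unit => v) x := by
    ext i
    rcases i with i | i
    · simp [eSnoc]
    · simp [eSnoc]
  rw [e] at h
  exact h.symm

theorem sk_cons_eq_kd {r : ℕ} (v : ℝ) (u : Fin r → ℝ) :
    (sk (Fin.cons v u : Fin (r + 1) → ℝ)).det = kd r (fun i => u i - v) := by
  unfold kd
  rw [sk_cons_eq, sk_snoc_eq]
  have h := skt_shift (Sum.elim (fun _ : Unit => (0 : ℝ)) (fun i => u i - v)) v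
  rw [← h]
  congr 2
  ext i
  rcases i with i | i
  · simp
  · simp

theorem sk_cons_le {n : ℕ} (v : ℝ) (x : Fin n → ℝ) :
    (sk (Fin.cons v x : Fin (n + 1) → ℝ)).det ≤ (sk x).det := by
  rw [sk_cons_eq]
  have h := skt_fischer (fun _ : Unit => v) x
  have e : (skt (fun _ : Unit => v)).det = 1 := by
    simp [skt]
  rw [e, one_mul] at h
  exact h

theorem kd_cons (r : ℕ) (v : ℝ) (u : Fin r → ℝ) :
    kd (r + 1) (Fin.cons v u) = (sk (Fin.cons v (Fin.snoc u 0 : Fin (r + 1) → ℝ) :
      Fin (r + 2) → ℝ)).det := by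
  unfold kd
  have : (Fin.snoc (Fin.cons v u : Fin (r + 1) → ℝ) 0 : Fin (r + 2) → ℝ) =
      Fin.cons v (Fin.snoc u 0 : Fin (r + 1) → ℝ) :=
    (Fin.cons_snoc_eq_snoc_cons v u (0 : ℝ)).symm
  rw [this]

theorem kd_cons_le (r : ℕ) (v : ℝ) (u : Fin r → ℝ) : kd (r + 1) (Fin.cons v u) ≤ kd r u := by
  rw [kd_cons]
  exact sk_cons_le v _

/-- two tuples -/
theorem kd_append_le (r : ℕ) (v : ℝ) (u' u : Fin r → ℝ) :
    kd (r + 1 + r) (Fin.append (Fin.cons v u' : Fin (r + 1) → ℝ) u) ≤
      kd r (fun i => u' i - v) * kd r u := by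
  have e : (Fin.snoc (Fin.append (Fin.cons v u' : Fin (r + 1) → ℝ) u) 0 :
      Fin (r + 1 + r + 1) → ℝ) =
      Fin.append (Fin.cons v u' : Fin (r + 1) → ℝ) (Fin.snoc u 0 : Fin (r + 1) → ℝ) :=
    (Fin.append_snoc (Fin.cons v u' : Fin (r + 1) → ℝ) u (0 : ℝ)).symm
  have h := sk_append_le (Fin.cons v u' : Fin (r + 1) → ℝ) (Fin.snoc u 0 : Fin (r + 1) → ℝ)
  rw [sk_cons_eq_kd] at h
  unfold kd at h ⊢
  rw [e]
  exact h

end Pool.Agent.H19.HL
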