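import Pool.Agent.H19.UH.PairsAsymp

/-!
# The upper half of a level gives the whole of the levels below half of it
-/

open Finset Filter Topology MeasureTheory

namespace Pool.Agent.H19.HL

namespace PD

variable {P : PD} {l : Filter ℝ}

/-- the positions are in `[0, M]` -/
theorem y_mem {T : ℝ} (hT : 1 < T) {n : ℕ} (hn : n ∈ P.F T) :
    0 ≤ P.y T n ∧ P.y T n ≤ MM T := by
  unfold F at hn
  rw [mem_Icc] at hn
  have h1 := P.hpos n hn.1
  have h2 := (P.hx n hn.1 T).mpr hn.2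
  have hl : 0 < Real.log T := Real.log_pos hT
  have hpi := Real.pi_pos
  unfold y
  refine ⟨by positivity, ?_⟩
  unfold MM
  have h3 : P.x n * (Real.log T / (2 * Real.pi)) ≤ T * (Real.log T / (2 * Real.pi)) :=
    mul_le_mul_of_nonneg_right h2 (by positivity)
  refine h3.trans (le_of_eq ?_)
  ring

theorem N_le (P : PD) (ε : ℝ) (hε : 0 < ε) : ∀ᶠ T in atTop, (P.N T : ℝ) ≤ (1 + ε) * MM T := by
  have h1 := P.asymp.eventually_le_const (show 1 < 1 + ε by linarith)
  filter_upwards [h1, MM_tendsto.eventually_gt_atTop 0] with T h2 h3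
  unfold MM at h3 ⊢
  rwa [div_le_iff₀ h3] at h2

/-- **The lower half** of level `r + 1` from the whole of level `r` and the upper half of level
`2 r + 1`. -/
theorem lower (hl : l ≤ atTop) {r : ℕ} (h1 : P.Level l r) (h2 : P.Upper l (r + 1 + r))
    (a b : Fin r → ℝ) (hab : ∀ i, a i < b i) (c d : ℝ) (hcd : c < d) (ε0 : ℝ) (hε0 : 0 < ε0) :
    ∀ᶠ T in l, ((∫ v in Set.Icc c d, GG r a b v) - ε0) * MM T ≤
      P.S (r + 1) (Fin.cons c a) (Fin.cons d b) T := by
  have hU1 : P.Upper l 1 := udescend hl (by omega) h2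
  have hUr : P.Upper l (r + 1) := udescend hl (by omega) h2
  obtain ⟨C, hC, hQTT⟩ := QTT hl h2 a b hab
  set w : ℝ := ∫ u in Set.Icc a b, kd r u with hw
  have hw0 : 0 ≤ w := integral_nonneg (fun u => kd_nonneg r u)
  set I1 : ℝ := ∫ v in Set.Icc c d, GG r a b v with hI1
  have hI10 : 0 ≤ I1 := integral_nonneg (fun v => GG_nonneg r a b v)
  -- `μ`
  set μ : ℝ := min 1 (ε0 / (2 * (C + 1))) with hμ
  have hμ0 : 0 < μ := lt_min one_pos (by positivity)
  have hμ1 : μ ≤ 1 := min_le_left _ _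
  have hμ2 : μ ^ 2 / 2 * C ≤ ε0 / 4 := by
    have h3 : μ * (2 * (C + 1)) ≤ ε0 := by
      have := min_le_right 1 (ε0 / (2 * (C + 1)))
      rw [← hμ, le_div_iff₀ (by positivity)] at this
      exact this
    have h4 : μ ^ 2 * C ≤ μ * C := by
      apply mul_le_mul_of_nonneg_right _ hC
      nlinarith
    nlinarith
  -- `η`
  set η : ℝ := ε0 / (4 * (1 + 1 / (2 * μ ^ 2))) with hη
  have hη0 : 0 < η := by positivity
  have hη1 : η + 1 / (2 * μ ^ 2) * η = ε0 / 4 := by
    rw [hη]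
    field_simp
  obtain ⟨R1, hR10, hR1⟩ := wt_GG r a b η hη0
  obtain ⟨R2, hR20, hR2⟩ := wt_GG 0 (fun _ => 0) (fun _ => 0) η hη0
  set s0 : ℝ := |c| + |d| + 1 with hs0
  have hs00 : 0 < s0 := by positivity
  -- `R`
  set R : ℝ := max (max R1 R2) (s0 + 4 * s0 * I1 / ε0) with hR
  have hRR1 : R1 ≤ R := (le_max_left _ _).trans (le_max_left _ _)
  have hRR2 : R2 ≤ R := (le_max_right _ _).trans (le_max_left _ _)
  have hRs : s0 + 4 * s0 * I1 / ε0 ≤ R := le_max_right _ _
  have hI1n : 0 ≤ 4 * s0 * I1 / ε0 := by positivity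
  have hRs0 : s0 ≤ R := by linarith
  have hR0 : 0 < R := by linarith
  have hRI : s0 * I1 ≤ R * (ε0 / 4) := by
    have h3 : 4 * s0 * I1 / ε0 ≤ R := by linarith
    rw [div_le_iff₀ hε0] at h3
    linarith
  have hA := hR1 R hRR1
  have hA0 := hR2 R hRR2
  rw [w_zero] at hA0
  rw [← hw] at hA
  set A : ℝ := ∫ v in Set.Icc (-R) R, wt R v * GG r a b v with hAd
  set A0 : ℝ := ∫ v in Set.Icc (-R) R, wt R v * GG 0 (fun _ => 0) (fun _ => 0) v with hA0d
  set B : ℝ := ∫ v in Set.Icc c d, wt R v * GG r a b v with hBd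
  have hcabs := abs_le.mp (show |c| ≤ s0 by rw [hs0]; linarith [abs_nonneg d])
  have hdabs := abs_le.mp (show |d| ≤ s0 by rw [hs0]; linarith [abs_nonneg c])
  have hcR : -R < c := by
    have := neg_abs_le c
    have := abs_nonneg d
    linarith
  have hdR : d < R := by
    have := le_abs_self d
    have := abs_nonneg c
    linarith
  have hB : (R - s0) * I1 ≤ B := by
    rw [hI1, ← integral_const_mul, hBd]
    apply setIntegral_mono_on
    · exact (continuous_const.mul (GG_continuous r a b)).continuousOn.integrableOn_compact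
        isCompact_Icc
    · exact ((wt_continuous R).mul (GG_continuous r a b)).continuousOn.integrableOn_compact
        isCompact_Icc
    · exact measurableSet_Icc
    · intro v hv
      apply mul_le_mul_of_nonneg_right _ (GG_nonneg r a b v)
      unfold wt
      refine le_trans ?_ (le_max_left _ _)
      have : |v| ≤ s0 := by
        rw [abs_le]
        exact ⟨by linarith [hv.1], by linarith [hv.2]⟩
      linarith
  -- `e`
  set Z : ℝ := (r + 1) * R + 1 + R ^ 2 + 2 * w * R ^ 2 +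
    μ ^ 2 / 2 * (1 + 2 * w * R ^ 2 + w ^ 2 * R ^ 2) +
    1 / (2 * μ ^ 2) * (R + 1 + 3 * R ^ 2) with hZ
  have hZ0 : 0 < Z := by positivity
  set e : ℝ := R * (ε0 / 4) / Z with he
  have he0 : 0 < e := by positivity
  have heZ : e * Z = R * (ε0 / 4) := by
    rw [he]
    field_simp
  -- the eventual facts
  have g1 : ∀ᶠ T in l, (w - e) * MM T ≤ P.S r a b T := by
    have h3 := (h1 a b hab).eventually_const_le (show w - e < w by linarith)
    have h4 : ∀ᶠ T in l, 0 < MM T := hl (MM_tendsto.eventually_gt_atTop 0)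
    filter_upwards [h3, h4] with T h5 h6
    rwa [le_div_iff₀ h6] at h5
  have g2 : ∀ᶠ T in l, P.S r a b T ≤ (w + e) * MM T := by
    have h3 := (h1 a b hab).eventually_le_const (show w < w + e by linarith)
    have h4 : ∀ᶠ T in l, 0 < MM T := hl (MM_tendsto.eventually_gt_atTop 0)
    filter_upwards [h3, h4] with T h5 h6
    rwa [div_le_iff₀ h6] at h5
  have g3 : ∀ᶠ T in l, (1 - e) * MM T ≤ P.N T := hl (P.N_ge e he0)
  have g4 : ∀ᶠ T in l, (P.N T : ℝ) ≤ (1 + e) * MM T := hl (P.N_le e he0)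
  have g5 : ∀ᶠ T in l, R / e ≤ MM T := hl (MM_tendsto.eventually_ge_atTop _)
  have g6 := hQTT R hR0 e he0
  have g7 := QFF hl hU1 hR0 e he0
  have g8 := QTF hl hUr a b hab c d hcR hcd hdR e he0
  have g9 : ∀ᶠ T : ℝ in l, 1 < T := hl (eventually_gt_atTop 1)
  filter_upwards [g1, g2, g3, g4, g5, g6, g7, g8, g9] with T t1 t2 t3 t4 t5 t6 t7 t8 t9
  have hMR : R ≤ e * MM T := by
    rw [div_le_iff₀ he0] at t5
    linarith
  have hM0 : 0 < MM T := by
    have : 0 < e * MM T := lt_of_lt_of_le hR0 hMR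
    exact (mul_pos_iff_of_pos_left he0).mp this
  have hquad := quad (tup (P.F T) (P.y T) r a b) (fun j => P.y T (j (Fin.last r))) (P.F T)
    (P.y T) (M := MM T) (R := R) hR0.le hM0.le (by
      intro j hj
      rw [mem_tup] at hj
      exact y_mem t9 (hj.1 _)) (fun n hn => y_mem t9 hn) w μ hμ0
  set QTTv : ℝ := QQ R (tup (P.F T) (P.y T) r a b) (fun j => P.y T (j (Fin.last r)))
        (tup (P.F T) (P.y T) r a b) (fun j => P.y T (j (Fin.last r))) with hQTTv
  set QFFv : ℝ := QQ R (P.F T) (P.y T) (P.F T) (P.y T) with hQFFv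
  set QTFv : ℝ := QQ R (tup (P.F T) (P.y T) r a b) (fun j => P.y T (j (Fin.last r)))
        (P.F T) (P.y T) with hQTFv
  have hS0 : ((tup (P.F T) (P.y T) r a b).card : ℝ) = P.S r a b T := rfl
  have hN0 : ((P.F T).card : ℝ) = P.N T := by rw [card_F]
  rw [hS0, hN0] at hquad
  set S0 : ℝ := P.S r a b T with hS0d
  set N0 : ℝ := (P.N T : ℝ) with hN0d
  set S1 : ℝ := P.S (r + 1) (Fin.cons c a) (Fin.cons d b) T with hS1d
  set M : ℝ := MM T with hMd
  have hR2 : 0 ≤ R ^ 2 := by positivity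
  have hwR2 : 0 ≤ w * R ^ 2 := by positivity
  have hw2R2 : 0 ≤ w ^ 2 * R ^ 2 := by positivity
  have q1 : R ^ 2 * ((w - e) * M) ≤ R ^ 2 * S0 := mul_le_mul_of_nonneg_left t1 hR2
  have q2 : w * R ^ 2 * ((1 - e) * M) ≤ w * R ^ 2 * N0 := mul_le_mul_of_nonneg_left t3 hwR2
  have hMR' : M + R ≤ (1 + e) * M := by linarith
  have q3 : w * R ^ 2 * (M + R) ≤ w * R ^ 2 * ((1 + e) * M) :=
    mul_le_mul_of_nonneg_left hMR' hwR2
  have q4a : w ^ 2 * R ^ 2 * (M + R) ≤ w ^ 2 * R ^ 2 * ((1 + e) * M) :=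
    mul_le_mul_of_nonneg_left hMR' hw2R2
  have q4b : w * R ^ 2 * ((w - e) * M) ≤ w * R ^ 2 * S0 := mul_le_mul_of_nonneg_left t1 hwR2
  have q4c : QTTv - 2 * w * R ^ 2 * S0 + w ^ 2 * R ^ 2 * (M + R) ≤
      (C * R + e * (1 + 2 * w * R ^ 2 + w ^ 2 * R ^ 2)) * M := by
    linarith
  have q4 : μ ^ 2 / 2 * (QTTv - 2 * w * R ^ 2 * S0 + w ^ 2 * R ^ 2 * (M + R)) ≤
      μ ^ 2 / 2 * ((C * R + e * (1 + 2 * w * R ^ 2 + w ^ 2 * R ^ 2)) * M) :=
    mul_le_mul_of_nonneg_left q4c (by positivity)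
  have q5a : R * N0 ≤ R * ((1 + e) * M) := mul_le_mul_of_nonneg_left t4 hR0.le
  have q5b : A0 * M ≤ (1 * R ^ 2 - ((0 : ℕ) + 1) * 1 * R + η * R) * M :=
    mul_le_mul_of_nonneg_right hA0 hM0.le
  have q5c : R ^ 2 * ((1 - e) * M) ≤ R ^ 2 * N0 := mul_le_mul_of_nonneg_left t3 hR2
  have q5d : R ^ 2 * (M + R) ≤ R ^ 2 * ((1 + e) * M) := mul_le_mul_of_nonneg_left hMR' hR2
  have q5e : QFFv - 2 * R ^ 2 * N0 + R ^ 2 * (M + R) ≤
      (η * R + e * (R + 1 + 3 * R ^ 2)) * M := by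
    push_cast at q5b
    linarith
  have q5 : 1 / (2 * μ ^ 2) * (QFFv - 2 * R ^ 2 * N0 + R ^ 2 * (M + R)) ≤
      1 / (2 * μ ^ 2) * ((η * R + e * (R + 1 + 3 * R ^ 2)) * M) :=
    mul_le_mul_of_nonneg_left q5e (by positivity)
  have q6 : (r + 1) * R * S0 ≤ (r + 1) * R * ((w + e) * M) :=
    mul_le_mul_of_nonneg_left t2 (by positivity)
  have q7 : (A - B + e) * M ≤
      (w * R ^ 2 - (r + 1) * w * R + η * R - (R - s0) * I1 + e) * M := by
    apply mul_le_mul_of_nonneg_right _ hM0.le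
    linarith
  have q8 : ((R - s0) * I1 - η * R - e * Z - μ ^ 2 / 2 * (C * R) -
      1 / (2 * μ ^ 2) * (η * R)) * M ≤ R * S1 := by
    rw [hZ]
    linarith
  have q9 : R * (I1 - ε0) ≤ (R - s0) * I1 - η * R - e * Z - μ ^ 2 / 2 * (C * R) -
      1 / (2 * μ ^ 2) * (η * R) := by
    rw [heZ]
    have e1 : η * R + 1 / (2 * μ ^ 2) * (η * R) = R * (ε0 / 4) := by
      rw [← hη1]
      ring
    have e2 : μ ^ 2 / 2 * (C * R) ≤ R * (ε0 / 4) := by
      calc μ ^ 2 / 2 * (C * R) = (μ ^ 2 / 2 * C) * R := by ring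
        _ ≤ ε0 / 4 * R := mul_le_mul_of_nonneg_right hμ2 hR0.le
        _ = _ := by ring
    linarith
  have q10 : R * ((I1 - ε0) * M) ≤ R * S1 := by
    calc R * ((I1 - ε0) * M) = R * (I1 - ε0) * M := by ring
      _ ≤ _ := mul_le_mul_of_nonneg_right q9 hM0.le
      _ ≤ _ := q8
  exact le_of_mul_le_mul_left q10 hR0

/-- **The key step.** -/
theorem key (hl : l ≤ atTop) {r : ℕ} (h1 : P.Level l r) (h2 : P.Upper l (r + 1 + r)) :
    P.Level l (r + 1) := by
  intro a' b' hab'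
  have hUr : P.Upper l (r + 1) := udescend hl (by omega) h2
  rw [Metric.tendsto_nhds]
  intro ε hε
  have h3 := hUr a' b' hab' (ε / 2) (by positivity)
  have h4 := lower hl h1 h2 (Fin.tail a') (Fin.tail b') (fun i => hab' i.succ) (a' 0) (b' 0)
    (hab' 0) (ε / 2) (by positivity)
  rw [Fin.cons_self_tail, Fin.cons_self_tail] at h4
  have e1 : ∫ u in Set.Icc a' b', kd (r + 1) u =
      ∫ v in Set.Icc (a' 0) (b' 0), GG r (Fin.tail a') (Fin.tail b') v := by
    have := fubini r (a' 0) (b' 0) (Fin.tail a') (Fin.tail b') _ (kd_continuous (r + 1))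
    rw [Fin.cons_self_tail, Fin.cons_self_tail] at this
    exact this
  rw [← e1] at h4
  have h5 : ∀ᶠ T in l, 0 < MM T := hl (MM_tendsto.eventually_gt_atTop 0)
  filter_upwards [h3, h4, h5] with T t3 t4 t5
  rw [Real.dist_eq, abs_lt]
  rw [← le_div_iff₀ t5] at t4
  constructor <;> linarith

/-- **The upper half suffices.** -/
theorem main (hl : l ≤ atTop) {s R : ℕ} (hs : 2 * s ≤ R + 1) (hU : P.Upper l R) :
    P.Level l s := by
  induction s with
  | zero => exact level_zero hl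
  | succ s ih =>
    exact key hl (ih (by omega)) (udescend hl (by omega) hU)

end PD

end Pool.Agent.H19.HL
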