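import Pool.Agent.H19.UH.Test

/-!
# Pairs of a tuple and a point
-/

open Finset Filter Topology MeasureTheory

namespace Pool.Agent.H19.HL

theorem own (F : Finset ℕ) (y : ℕ → ℝ) (r : ℕ) (a b : Fin r → ℝ) {R : ℝ} (hR : 0 ≤ R) :
    ∑ j ∈ tup F y r a b, ∑ n ∈ F, wt R (y (j (Fin.last r)) - y n) ≤
      (r + 1) * R * (tup F y r a b).card +
      ∑ z ∈ tup F y (r + 1) (Fin.cons (-R) a) (Fin.cons R b), wt R (vv y z) := by
  classical
  have h1 : ∀ j ∈ tup F y r a b, ∑ n ∈ F, wt R (y (j (Fin.last r)) - y n) ≤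
      (r + 1) * R + ∑ n ∈ F.filter (fun n => (∀ i, n ≠ j i) ∧
        y n - y (j (Fin.last r)) ∈ Set.Icc (-R) R), wt R (y n - y (j (Fin.last r))) := by
    intro j _
    have h2 : ∀ n ∈ F, wt R (y (j (Fin.last r)) - y n) ≤
        (if n ∈ univ.image j then R else 0) + (if (∀ i, n ≠ j i) ∧
        y n - y (j (Fin.last r)) ∈ Set.Icc (-R) R then wt R (y n - y (j (Fin.last r))) else 0) := by
      intro n _
      have e : wt R (y (j (Fin.last r)) - y n) = wt R (y n - y (j (Fin.last r))) := by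
        rw [← wt_neg]
        congr 1
        ring
      rw [e]
      by_cases h3 : n ∈ univ.image j
      · rw [if_pos h3]
        have h4 : 0 ≤ (if (∀ i, n ≠ j i) ∧
            y n - y (j (Fin.last r)) ∈ Set.Icc (-R) R then wt R (y n - y (j (Fin.last r)))
            else 0) := by
          split_ifs
          · exact wt_nonneg _ _
          · exact le_rfl
        linarith [wt_le hR (y n - y (j (Fin.last r)))]
      · rw [if_neg h3, zero_add]
        by_cases h4 : y n - y (j (Fin.last r)) ∈ Set.Icc (-R) R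
        · rw [if_pos]
          refine ⟨fun i hi => h3 ?_, h4⟩
          rw [mem_image]
          exact ⟨i, mem_univ _, hi.symm⟩
        · rw [if_neg (fun h => h4 h.2), wt_zero_of]
          by_contra h5
          push Not at h5
          exact h4 (abs_le.mp h5.le)
    refine (sum_le_sum h2).trans ?_
    rw [sum_add_distrib, ← sum_filter, ← sum_filter, sum_const, nsmul_eq_mul]
    apply add_le_add_left
    apply mul_le_mul_of_nonneg_right _ hR
    have h3 : (F.filter (fun n => n ∈ univ.image j)).card ≤ r + 1 := by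
      calc (F.filter (fun n => n ∈ univ.image j)).card ≤ (univ.image j).card := by
            apply card_le_card
            intro n hn
            exact (mem_filter.mp hn).2
        _ ≤ (univ : Finset (Fin (r + 1))).card := card_image_le
        _ = r + 1 := by rw [Finset.card_univ, Fintype.card_fin]
    exact_mod_cast h3
  refine (sum_le_sum h1).trans ?_
  rw [sum_add_distrib, sum_const, nsmul_eq_mul]
  have h4 : ∑ j ∈ tup F y r a b, ∑ n ∈ F.filter (fun n => (∀ i, n ≠ j i) ∧
        y n - y (j (Fin.last r)) ∈ Set.Icc (-R) R), wt R (y n - y (j (Fin.last r))) =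
      ∑ z ∈ tup F y (r + 1) (Fin.cons (-R) a) (Fin.cons R b), wt R (vv y z) := by
    rw [Finset.sum_sigma']
    refine Finset.sum_bij' (fun s _ => (Fin.cons s.2 s.1 : Fin (r + 2) → ℕ))
      (fun z _ => (⟨Fin.tail z, z 0⟩ : Σ _ : Fin (r + 1) → ℕ, ℕ)) ?_ ?_ ?_ ?_ ?_
    · rintro ⟨j, m⟩ hj
      rw [mem_sigma, mem_tup, mem_filter] at hj
      obtain ⟨⟨h1, h2, h3⟩, h4, h5, h6⟩ := hj
      simp only at h1 h2 h3 h4 h5 h6
      have e1 : (Fin.cons m j : Fin (r + 2) → ℕ) (Fin.last (r + 1)) = j (Fin.last r) := by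
        rw [← Fin.succ_last, Fin.cons_succ]
      rw [mem_tup_cons]
      refine ⟨fun i => ?_, ?_, ?_, fun i => ?_⟩
      · refine Fin.cases ?_ (fun i => ?_) i
        · exact h4
        · exact h1 i
      · rw [Fin.cons_injective_iff]
        refine ⟨?_, h2⟩
        rintro ⟨i, hi⟩
        exact h5 i hi.symm
      · rw [e1, Fin.cons_zero]
        exact h6
      · rw [e1, ← Fin.succ_castSucc, Fin.cons_succ]
        exact h3 i
    · intro z hz
      rw [mem_tup_cons] at hz
      obtain ⟨h1, h2, h3, h4⟩ := hz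
      rw [mem_sigma, mem_tup, mem_filter]
      have e1 : Fin.tail z (Fin.last r) = z (Fin.last (r + 1)) := by
        rw [Fin.tail, Fin.succ_last]
      refine ⟨⟨fun i => h1 _, fun i i' h => ?_, fun i => ?_⟩, h1 0, fun i h => ?_, ?_⟩
      · exact Fin.succ_injective _ (h2 h)
      · show y (Fin.tail z i.castSucc) - y (Fin.tail z (Fin.last r)) ∈ Set.Icc (a i) (b i)
        rw [e1]
        have e2 : Fin.tail z i.castSucc = z i.succ.castSucc := by
          rw [Fin.tail, Fin.succ_castSucc]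
        rw [e2]
        exact h4 i
      · have := h2 h
        exact (Fin.succ_ne_zero i) this.symm
      · simp only [e1]
        exact h3
    · rintro ⟨j, m⟩ _
      simp only [Fin.tail_cons, Fin.cons_zero]
    · intro z _
      simp only
      exact Fin.cons_self_tail z
    · rintro ⟨j, m⟩ _
      have e1 : (Fin.cons m j : Fin (r + 2) → ℕ) (Fin.last (r + 1)) = j (Fin.last r) := by
        rw [← Fin.succ_last, Fin.cons_succ]
      simp only [vv, Fin.cons_zero, e1]
  rw [h4]
  apply le_of_eq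
  ring

theorem split3 (F : Finset ℕ) (y : ℕ → ℝ) (r : ℕ) (a b : Fin r → ℝ) {R : ℝ} (hR : 0 ≤ R)
    (c d : ℝ) :
    ∑ z ∈ tup F y (r + 1) (Fin.cons (-R) a) (Fin.cons R b), wt R (vv y z) ≤
      R * (tup F y (r + 1) (Fin.cons c a) (Fin.cons d b)).card +
      (∑ z ∈ tup F y (r + 1) (Fin.cons (-R) a) (Fin.cons c b), wt R (vv y z) +
      ∑ z ∈ tup F y (r + 1) (Fin.cons d a) (Fin.cons R b), wt R (vv y z)) := by
  classical
  have h1 : R * (tup F y (r + 1) (Fin.cons c a) (Fin.cons d b)).card =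
      ∑ z ∈ tup F y (r + 1) (Fin.cons c a) (Fin.cons d b), R := by
    rw [sum_const, nsmul_eq_mul, mul_comm]
  set A := tup F y (r + 1) (Fin.cons (-R) a) (Fin.cons R b) with hA
  set B1 := tup F y (r + 1) (Fin.cons c a) (Fin.cons d b) with hB1
  set B2 := tup F y (r + 1) (Fin.cons (-R) a) (Fin.cons c b) with hB2
  set B3 := tup F y (r + 1) (Fin.cons d a) (Fin.cons R b) with hB3
  have h2 : A ⊆ B1 ∪ (B2 ∪ B3) := by
    intro z hz
    rw [hA, mem_tup_cons] at hz
    obtain ⟨z1, z2, z3, z4⟩ := hz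
    rw [mem_union, mem_union, hB1, hB2, hB3, mem_tup_cons, mem_tup_cons, mem_tup_cons]
    rcases le_total (y (z 0) - y (z (Fin.last (r + 1)))) c with h3 | h3
    · right; left
      exact ⟨z1, z2, ⟨z3.1, h3⟩, z4⟩
    · rcases le_total d (y (z 0) - y (z (Fin.last (r + 1)))) with h4 | h4
      · right; right
        exact ⟨z1, z2, ⟨h4, z3.2⟩, z4⟩
      · left
        exact ⟨z1, z2, ⟨h3, h4⟩, z4⟩
  have hn : ∀ z : Fin (r + 2) → ℕ, 0 ≤ wt R (vv y z) := fun z => wt_nonneg _ _
  have hun : ∀ A B : Finset (Fin (r + 2) → ℕ), ∑ z ∈ A ∪ B, wt R (vv y z) ≤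
      ∑ z ∈ A, wt R (vv y z) + ∑ z ∈ B, wt R (vv y z) := by
    intro A B
    have := Finset.sum_union_inter (s₁ := A) (s₂ := B) (f := fun z => wt R (vv y z))
    have h0 : 0 ≤ ∑ z ∈ A ∩ B, wt R (vv y z) := sum_nonneg (fun z _ => hn z)
    linarith
  calc ∑ z ∈ A, wt R (vv y z) ≤ ∑ z ∈ B1 ∪ (B2 ∪ B3), wt R (vv y z) :=
        sum_le_sum_of_subset_of_nonneg h2 (fun z _ _ => hn z)
    _ ≤ ∑ z ∈ B1, wt R (vv y z) + (∑ z ∈ B2, wt R (vv y z) + ∑ z ∈ B3, wt R (vv y z)) := by
        linarith [hun B1 (B2 ∪ B3), hun B2 B3]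
    _ ≤ _ := by
        rw [h1]
        have : ∑ z ∈ B1, wt R (vv y z) ≤ ∑ z ∈ B1, R := sum_le_sum (fun z _ => wt_le hR _)
        linarith

namespace PD

variable {P : PD} {l : Filter ℝ}

/-- the tuples of length one -/
theorem tup_zero (F : Finset ℕ) (y : ℕ → ℝ) (a b : Fin 0 → ℝ) (f : ℕ → ℝ) :
    ∑ j ∈ tup F y 0 a b, f (j (Fin.last 0)) = ∑ n ∈ F, f n := by
  classical
  refine Finset.sum_bij' (fun j _ => j (Fin.last 0)) (fun n _ => (fun _ : Fin 1 => n)) ?_ ?_ ?_ ?_ ?_
  · intro j hj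
    rw [mem_tup] at hj
    exact hj.1 _
  · intro n hn
    rw [mem_tup]
    refine ⟨fun _ => hn, fun i i' _ => ?_, fun i => i.elim0⟩
    rw [Fin.fin_one_eq_zero i, Fin.fin_one_eq_zero i']
  · intro j _
    ext i
    have : i = Fin.last 0 := by
      have := Fin.fin_one_eq_zero i
      rw [this]
      rfl
    rw [this]
  · intro n _
    rfl
  · intro j _
    rfl

theorem card_tup_zero (F : Finset ℕ) (y : ℕ → ℝ) (a b : Fin 0 → ℝ) :
    ((tup F y 0 a b).card : ℝ) = F.card := by
  have := tup_zero F y a b (fun _ => 1)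
  simpa using this

theorem card_F (P : PD) (T : ℝ) : (P.F T).card = P.N T := by
  unfold F
  rw [Nat.card_Icc]
  simp

theorem kd_zero (u : Fin 0 → ℝ) : kd 0 u = 1 := by
  unfold kd sk
  rw [Matrix.det_fin_one]
  simp

theorem w_zero (a b : Fin 0 → ℝ) : ∫ u in Set.Icc a b, kd 0 u = 1 := by
  simp_rw [kd_zero]
  rw [setIntegral_const, smul_eq_mul, mul_one, Measure.real]
  have : (volume (Set.Icc a b)).toReal = ∏ i : Fin 0, (b i - a i) :=
    Real.volume_Icc_pi_toReal (fun i => i.elim0)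
  rw [this]
  simp

/-- one point: level zero -/
theorem level_zero (hl : l ≤ atTop) : P.Level l 0 := by
  intro a b _
  rw [w_zero]
  have h1 := P.asymp.mono_left hl
  refine h1.congr (fun T => ?_)
  unfold S MM
  rw [card_tup_zero, card_F]

/-- the tent sum of the points with themselves -/
theorem QFF (hl : l ≤ atTop) (h : P.Upper l 1) {R : ℝ} (hR : 0 < R) (ε : ℝ) (hε : 0 < ε) :
    ∀ᶠ T in l, QQ R (P.F T) (P.y T) (P.F T) (P.y T) ≤
      R * P.N T + ((∫ v in Set.Icc (-R) R, wt R v * GG 0 (fun _ => 0) (fun _ => 0) v) + ε) *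
        MM T := by
  have h1 := ut hl (r := 0) h (fun _ => 0) (fun _ => 0) (fun i => i.elim0) (-R) R (by linarith)
    (wt R) (wt_nonneg R) (wt_lip R) ε hε
  filter_upwards [h1] with T h2
  have h3 := own (P.F T) (P.y T) 0 (fun _ => 0) (fun _ => 0) hR.le
  have h4 := tup_zero (P.F T) (P.y T) (fun _ => 0) (fun _ => 0)
    (fun m => ∑ n ∈ P.F T, wt R (P.y T m - P.y T n))
  have h5 : ((tup (P.F T) (P.y T) 0 (fun _ => 0) (fun _ => 0)).card : ℝ) = P.N T := by
    rw [card_tup_zero, card_F]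
  rw [h4, h5] at h3
  unfold QQ
  refine h3.trans ?_
  push_cast
  linarith

/-- the tent sum of the tuples with the points -/
theorem QTF (hl : l ≤ atTop) {r : ℕ} (h : P.Upper l (r + 1)) (a b : Fin r → ℝ)
    (hab : ∀ i, a i < b i) (c d : ℝ) {R : ℝ} (hc : -R < c) (hcd : c < d) (hd : d < R) (ε : ℝ)
    (hε : 0 < ε) :
    ∀ᶠ T in l, QQ R (tup (P.F T) (P.y T) r a b) (fun j => P.y T (j (Fin.last r)))
        (P.F T) (P.y T) ≤
      (r + 1) * R * P.S r a b T + R * P.S (r + 1) (Fin.cons c a) (Fin.cons d b) T +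
      ((∫ v in Set.Icc (-R) R, wt R v * GG r a b v) - (∫ v in Set.Icc c d, wt R v * GG r a b v) +
        ε) * MM T := by
  have hR : 0 ≤ R := by linarith
  have h1 := ut hl h a b hab (-R) c hc (wt R) (wt_nonneg R) (wt_lip R) (ε / 2) (by positivity)
  have h2 := ut hl h a b hab d R hd (wt R) (wt_nonneg R) (wt_lip R) (ε / 2) (by positivity)
  filter_upwards [h1, h2] with T h3 h4
  have h5 := own (P.F T) (P.y T) r a b hR
  have h6 := split3 (P.F T) (P.y T) r a b hR c d
  have hcont : Continuous (fun v => wt R v * GG r a b v) :=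
    (wt_continuous R).mul (GG_continuous r a b)
  have h7 : (∫ v in Set.Icc (-R) R, wt R v * GG r a b v) =
      (∫ v in Set.Icc (-R) c, wt R v * GG r a b v) + (∫ v in Set.Icc c d, wt R v * GG r a b v) +
      (∫ v in Set.Icc d R, wt R v * GG r a b v) := by
    rw [integral_Icc_eq_integral_Ioc, integral_Icc_eq_integral_Ioc, integral_Icc_eq_integral_Ioc,
      integral_Icc_eq_integral_Ioc, ← intervalIntegral.integral_of_le (by linarith),
      ← intervalIntegral.integral_of_le hc.le, ← intervalIntegral.integral_of_le hcd.le,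
      ← intervalIntegral.integral_of_le hd.le,
      intervalIntegral.integral_add_adjacent_intervals (hcont.intervalIntegrable _ _)
        (hcont.intervalIntegrable _ _),
      intervalIntegral.integral_add_adjacent_intervals (hcont.intervalIntegrable _ _)
        (hcont.intervalIntegrable _ _)]
  rw [h7]
  unfold QQ S
  refine h5.trans ?_
  linarith

end PD

end Pool.Agent.H19.HL
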