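import Pool.Agent.H19.UH.UMoment

/-!
# Pairs of tuples
-/

open Finset Filter Topology MeasureTheory

namespace Pool.Agent.H19.HL

/-- the last entry first -/
def rot {r : ℕ} (j : Fin (r + 1) → ℕ) : Fin (r + 1) → ℕ :=
  Fin.cons (j (Fin.last r)) (fun i => j i.castSucc)

/-- two tuples in a row -/
def join {r : ℕ} (j' j : Fin (r + 1) → ℕ) : Fin (r + 1 + r + 1) → ℕ :=
  (Fin.append (rot j') j : Fin (r + 1 + (r + 1)) → ℕ)

theorem join_left {r : ℕ} (j' j : Fin (r + 1) → ℕ) (i : Fin (r + 1)) :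
    join j' j (Fin.castAdd (r + 1) i) = rot j' i := Fin.append_left _ _ i

theorem join_right {r : ℕ} (j' j : Fin (r + 1) → ℕ) (i : Fin (r + 1)) :
    join j' j (Fin.natAdd (r + 1) i) = j i := Fin.append_right _ _ i

theorem join_last {r : ℕ} (j' j : Fin (r + 1) → ℕ) :
    join j' j (Fin.last (r + 1 + r)) = j (Fin.last r) := by
  rw [← join_right j' j]
  congr 1

theorem rot_zero {r : ℕ} (j : Fin (r + 1) → ℕ) : rot j 0 = j (Fin.last r) := rfl

theorem rot_succ {r : ℕ} (j : Fin (r + 1) → ℕ) (i : Fin r) : rot j i.succ = j i.castSucc := rfl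

theorem rot_mem {r : ℕ} (j : Fin (r + 1) → ℕ) (i : Fin (r + 1)) : ∃ k, rot j i = j k := by
  refine Fin.cases ?_ (fun i => ?_) i
  · exact ⟨_, rot_zero j⟩
  · exact ⟨_, rot_succ j i⟩

theorem rot_injective {r : ℕ} {j : Fin (r + 1) → ℕ} (hj : Function.Injective j) :
    Function.Injective (rot j) := by
  unfold rot
  rw [Fin.cons_injective_iff]
  refine ⟨?_, fun i i' h => ?_⟩
  · rintro ⟨i, hi⟩
    have := hj hi
    exact absurd this (Fin.castSucc_lt_last i).ne
  · exact Fin.castSucc_injective _ (hj h)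

theorem rot_inj {r : ℕ} {j j' : Fin (r + 1) → ℕ} (h : rot j = rot j') : j = j' := by
  ext i
  refine Fin.lastCases ?_ (fun i => ?_) i
  · exact congrFun h 0
  · exact congrFun h i.succ

theorem join_mem (F : Finset ℕ) (y : ℕ → ℝ) {r : ℕ} (a b : Fin r → ℝ) {j' j : Fin (r + 1) → ℕ}
    (hj' : j' ∈ tup F y r a b) (hj : j ∈ tup F y r a b) (hd : ∀ i i', j' i ≠ j i') (p q : ℝ)
    (hv : y (j' (Fin.last r)) - y (j (Fin.last r)) ∈ Set.Icc p q) :
    join j' j ∈ tup F y (r + 1 + r)
      (Fin.append (Fin.cons p (fun i => a i + p) : Fin (r + 1) → ℝ) a)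
      (Fin.append (Fin.cons q (fun i => b i + q) : Fin (r + 1) → ℝ) b) := by
  rw [mem_tup] at hj hj' ⊢
  obtain ⟨h1, h2, h3⟩ := hj
  obtain ⟨h1', h2', h3'⟩ := hj'
  refine ⟨fun i => ?_, fun i i' => ?_, fun i => ?_⟩
  · refine Fin.addCases (m := r + 1) (n := r + 1)
      (motive := fun i => join j' j i ∈ F) (fun i => ?_) (fun i => ?_) i
    · rw [join_left]
      obtain ⟨k, hk⟩ := rot_mem j' i
      rw [hk]
      exact h1' k
    · rw [join_right]
      exact h1 i
  · refine Fin.addCases (m := r + 1) (n := r + 1)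
      (motive := fun i => join j' j i = join j' j i' → i = i') (fun i => ?_) (fun i => ?_) i
    · refine Fin.addCases (m := r + 1) (n := r + 1)
        (motive := fun i' => join j' j (Fin.castAdd (r + 1) i) = join j' j i' →
          Fin.castAdd (r + 1) i = i') (fun i' => ?_) (fun i' => ?_) i'
      · rw [join_left, join_left]
        intro h
        rw [rot_injective h2' h]
      · rw [join_left, join_right]
        intro h
        obtain ⟨k, hk⟩ := rot_mem j' i
        rw [hk] at h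
        exact absurd h (hd k i')
    · refine Fin.addCases (m := r + 1) (n := r + 1)
        (motive := fun i' => join j' j (Fin.natAdd (r + 1) i) = join j' j i' →
          Fin.natAdd (r + 1) i = i') (fun i' => ?_) (fun i' => ?_) i'
      · rw [join_left, join_right]
        intro h
        obtain ⟨k, hk⟩ := rot_mem j' i'
        rw [hk] at h
        exact absurd h.symm (hd k i)
      · rw [join_right, join_right]
        intro h
        rw [h2 h]
  · rw [join_last]
    refine Fin.addCases (fun i => ?_) (fun i => ?_) i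
    · rw [Fin.append_left, Fin.append_left]
      have e : (Fin.castAdd r i).castSucc = Fin.castAdd (r + 1) i := rfl
      rw [e, join_left]
      refine Fin.cases ?_ (fun i => ?_) i
      · rw [rot_zero, Fin.cons_zero, Fin.cons_zero]
        exact hv
      · rw [rot_succ, Fin.cons_succ, Fin.cons_succ]
        have h4 := h3' i
        constructor
        · linarith [h4.1, hv.1]
        · linarith [h4.2, hv.2]
    · rw [Fin.append_right, Fin.append_right]
      have e : (Fin.natAdd (r + 1) i).castSucc = Fin.natAdd (r + 1) i.castSucc := rfl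
      rw [e, join_right]
      exact h3 i

theorem join_inj {r : ℕ} {j' j k' k : Fin (r + 1) → ℕ} (h : join j' j = join k' k) :
    j' = k' ∧ j = k := by
  constructor
  · apply rot_inj
    ext i
    rw [← join_left j' j, ← join_left k' k, h]
  · ext i
    rw [← join_right j' j, ← join_right k' k, h]

/-- the disjoint pairs -/
theorem disj_card (F : Finset ℕ) (y : ℕ → ℝ) {r : ℕ} (a b : Fin r → ℝ) (p q : ℝ)
    [DecidablePred (fun x : (Fin (r + 1) → ℕ) × (Fin (r + 1) → ℕ) => (∀ i i', x.1 i ≠ x.2 i') ∧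
      y (x.1 (Fin.last r)) - y (x.2 (Fin.last r)) ∈ Set.Icc p q)] :
    ((tup F y r a b ×ˢ tup F y r a b).filter (fun x => (∀ i i', x.1 i ≠ x.2 i') ∧
      y (x.1 (Fin.last r)) - y (x.2 (Fin.last r)) ∈ Set.Icc p q)).card ≤
    (tup F y (r + 1 + r)
      (Fin.append (Fin.cons p (fun i => a i + p) : Fin (r + 1) → ℝ) a)
      (Fin.append (Fin.cons q (fun i => b i + q) : Fin (r + 1) → ℝ) b)).card := by
  apply card_le_card_of_injOn (fun x => join x.1 x.2)
  · intro x hx
    rw [mem_coe, mem_filter, mem_product] at hx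
    exact join_mem F y a b hx.1.1 hx.1.2 hx.2.1 p q hx.2.2
  · intro x _ x' _ h
    obtain ⟨h1, h2⟩ := join_inj h
    exact Prod.ext h1 h2

/-- the pairs with a common index -/
theorem over_card (F : Finset ℕ) (y : ℕ → ℝ) {r : ℕ} (a b : Fin r → ℝ) (b0 : ℕ)
    (ha : ∀ i, -(b0 : ℝ) ≤ a i) (hb : ∀ i, b i ≤ b0) (I : ℤ)
    (hF : ∀ n ∈ F, 0 ≤ ⌊y n⌋ ∧ ⌊y n⌋ < I)
    [DecidablePred (fun x : (Fin (r + 1) → ℕ) × (Fin (r + 1) → ℕ) => ∃ i i', x.1 i = x.2 i')] :
    ((tup F y r a b ×ˢ tup F y r a b).filter (fun x => ∃ i i', x.1 i = x.2 i')).card ≤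
      ∑ i ∈ Finset.Ico 0 I, (win F y (i - (3 * b0 : ℕ)) (6 * b0 + 1)).card ^ (2 * r + 2) := by
  classical
  have hmap : ∀ x ∈ (tup F y r a b ×ˢ tup F y r a b).filter (fun x => ∃ i i', x.1 i = x.2 i'),
      ⌊y (x.2 (Fin.last r))⌋ ∈ Finset.Ico 0 I := by
    intro x hx
    rw [mem_filter, mem_product, mem_tup, mem_tup] at hx
    rw [mem_Ico]
    exact hF _ (hx.1.2.1 _)
  rw [card_eq_sum_card_fiberwise hmap]
  apply sum_le_sum
  intro i _
  set W := win F y (i - (3 * b0 : ℕ)) (6 * b0 + 1) with hW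
  have h0 : (Fintype.piFinset (fun _ : Fin (r + 1) => W) ×ˢ
      Fintype.piFinset (fun _ : Fin (r + 1) => W)).card = W.card ^ (2 * r + 2) := by
    rw [card_product, Fintype.card_piFinset, prod_const, Finset.card_univ, Fintype.card_fin,
      ← pow_add]
    congr 1
    omega
  rw [← h0]
  apply card_le_card
  intro x hx
  rw [mem_filter, mem_filter, mem_product, mem_tup, mem_tup] at hx
  obtain ⟨⟨⟨⟨h1', -, h3'⟩, h1, -, h3⟩, i0, i1, hs⟩, h4⟩ := hx
  have h5 : (i : ℝ) ≤ y (x.2 (Fin.last r)) := Int.le_floor.mp h4.ge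
  have h6 : y (x.2 (Fin.last r)) < i + 1 := by
    have := Int.lt_floor_add_one (y (x.2 (Fin.last r)))
    rw [h4] at this
    exact this
  have hb0 : (0 : ℝ) ≤ b0 := Nat.cast_nonneg _
  have k2 : ∀ k, y (x.2 k) - y (x.2 (Fin.last r)) ∈ Set.Icc (-(b0 : ℝ)) b0 := by
    intro k
    refine Fin.lastCases ?_ (fun k => ?_) k
    · rw [sub_self]
      exact ⟨by linarith, hb0⟩
    · exact ⟨(ha k).trans (h3 k).1, (h3 k).2.trans (hb k)⟩
  have k1 : ∀ k, y (x.1 k) - y (x.1 (Fin.last r)) ∈ Set.Icc (-(b0 : ℝ)) b0 := by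
    intro k
    refine Fin.lastCases ?_ (fun k => ?_) k
    · rw [sub_self]
      exact ⟨by linarith, hb0⟩
    · exact ⟨(ha k).trans (h3' k).1, (h3' k).2.trans (hb k)⟩
  have h7 := k2 i1
  have h8 := k1 i0
  rw [hs] at h8
  have key : ∀ n ∈ F, y n - y (x.2 (Fin.last r)) ∈ Set.Icc (-(3 * b0 : ℝ)) (3 * b0) → n ∈ W := by
    intro n hn hy
    rw [hW, mem_win]
    refine ⟨hn, ?_, ?_⟩
    · apply Int.le_floor.mpr
      push_cast
      linarith [hy.1]
    · apply Int.floor_lt.mpr
      push_cast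
      linarith [hy.2]
  rw [mem_product, Fintype.mem_piFinset, Fintype.mem_piFinset]
  constructor
  · intro k
    apply key _ (h1' k)
    have h9 := k1 k
    constructor
    · linarith [h9.1, h8.2, h7.1]
    · linarith [h9.2, h8.1, h7.2]
  · intro k
    apply key _ (h1 k)
    have h9 := k2 k
    constructor
    · linarith [h9.1]
    · linarith [h9.2]

/-- the tent sum over the pairs of tuples -/
theorem QTT_comb (F : Finset ℕ) (y : ℕ → ℝ) {r : ℕ} (a b : Fin r → ℝ) (b0 : ℕ)
    (ha : ∀ i, -(b0 : ℝ) ≤ a i) (hb : ∀ i, b i ≤ b0) (I : ℤ)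
    (hF : ∀ n ∈ F, 0 ≤ ⌊y n⌋ ∧ ⌊y n⌋ < I) {R h : ℝ} (hR : 0 ≤ R) (hh : 0 < h) (K : ℕ)
    (hK1 : 1 ≤ K) (hK : -R + K * h = R) :
    QQ R (tup F y r a b) (fun j => y (j (Fin.last r))) (tup F y r a b)
      (fun j => y (j (Fin.last r))) ≤
    R * ∑ i ∈ Finset.Ico 0 I, ((win F y (i - (3 * b0 : ℕ)) (6 * b0 + 1)).card : ℝ) ^ (2 * r + 2) +
    ∑ c ∈ range K, (wt R (-R + c * h) + h) * ((tup F y (r + 1 + r)
      (Fin.append (Fin.cons (-R + c * h) (fun i => a i + (-R + c * h)) : Fin (r + 1) → ℝ) a)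
      (Fin.append (Fin.cons (-R + (c + 1) * h) (fun i => b i + (-R + (c + 1) * h)) :
        Fin (r + 1) → ℝ) b)).card : ℝ) := by
  classical
  set A := tup F y r a b with hA
  have e0 : QQ R A (fun j => y (j (Fin.last r))) A (fun j => y (j (Fin.last r))) =
      ∑ x ∈ A ×ˢ A, wt R (y (x.1 (Fin.last r)) - y (x.2 (Fin.last r))) := by
    unfold QQ
    rw [sum_product]
  rw [e0]
  have hc0 : ∀ c : ℕ, 0 ≤ wt R (-R + c * h) + h := fun c => by
    have := wt_nonneg R (-R + c * h)
    linarith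
  have h1 : ∀ x ∈ A ×ˢ A, wt R (y (x.1 (Fin.last r)) - y (x.2 (Fin.last r))) ≤
      (if ∃ i i', x.1 i = x.2 i' then R else 0) +
      ∑ c ∈ range K, if (∀ i i', x.1 i ≠ x.2 i') ∧
        y (x.1 (Fin.last r)) - y (x.2 (Fin.last r)) ∈
          Set.Icc (-R + c * h) (-R + (c + 1) * h) then (wt R (-R + c * h) + h) else 0 := by
    intro x _
    have hs0 : 0 ≤ ∑ c ∈ range K, if (∀ i i', x.1 i ≠ x.2 i') ∧
        y (x.1 (Fin.last r)) - y (x.2 (Fin.last r)) ∈
          Set.Icc (-R + c * h) (-R + (c + 1) * h) then (wt R (-R + c * h) + h) else 0 := by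
      apply sum_nonneg
      intro c _
      split_ifs
      · exact hc0 c
      · exact le_rfl
    by_cases hx : ∃ i i', x.1 i = x.2 i'
    · rw [if_pos hx]
      linarith [wt_le hR (y (x.1 (Fin.last r)) - y (x.2 (Fin.last r)))]
    · rw [if_neg hx, zero_add]
      push Not at hx
      set v := y (x.1 (Fin.last r)) - y (x.2 (Fin.last r)) with hv
      by_cases h2 : v ∈ Set.Icc (-R) R
      · obtain ⟨c, hc, hc1, hc2⟩ := exists_cell (-R) R h v K hK1 hh hK h2
        have h9 := Finset.single_le_sum (f := fun c : ℕ =>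
          if (∀ i i', x.1 i ≠ x.2 i') ∧ v ∈
          Set.Icc (-R + c * h) (-R + (c + 1) * h) then (wt R (-R + c * h) + h) else 0)
          (s := range K) (fun c _ => by
            split_ifs
            · exact hc0 c
            · exact le_rfl) (mem_range.mpr hc)
        have h10 : (∀ i i', x.1 i ≠ x.2 i') ∧ v ∈
          Set.Icc (-R + c * h) (-R + (c + 1) * h) := ⟨hx, hc1, hc2⟩
        simp only [if_pos h10] at h9
        refine le_trans ?_ h9
        have h6 := wt_lip R v (-R + c * h)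
        have h7 : |v - (-R + c * h)| ≤ h := by
          rw [abs_of_nonneg (by linarith)]
          linarith
        have h8 := le_abs_self (wt R v - wt R (-R + c * h))
        linarith
      · rw [wt_zero_of]
        · exact hs0
        · by_contra h5
          push Not at h5
          exact h2 (abs_le.mp h5.le)
  refine (sum_le_sum h1).trans ?_
  rw [sum_add_distrib, ← sum_filter, sum_const, nsmul_eq_mul, mul_comm]
  apply add_le_add
  · apply mul_le_mul_of_nonneg_left _ hR
    exact_mod_cast over_card F y a b b0 ha hb I hF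
  · rw [sum_comm]
    apply sum_le_sum
    intro c _
    rw [← sum_filter, sum_const, nsmul_eq_mul, mul_comm]
    apply mul_le_mul_of_nonneg_left _ (hc0 c)
    exact_mod_cast disj_card F y a b (-R + c * h) (-R + (c + 1) * h)

end Pool.Agent.H19.HL
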