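import Pool.Agent.H19.UH.Pairs

/-!
# Pairs of tuples: the upper bound
-/

open Finset Filter Topology MeasureTheory

namespace Pool.Agent.H19.HL

theorem exists_b0 {r : ℕ} (a b : Fin r → ℝ) : ∃ b0 : ℕ, ∀ i, -(b0 : ℝ) ≤ a i ∧ b i ≤ b0 := by
  obtain ⟨B, hB⟩ : ∃ B : ℝ, ∀ i, |a i| ≤ B ∧ |b i| ≤ B := by
    refine ⟨∑ i, (|a i| + |b i|), fun i => ?_⟩
    have h1 : |a i| + |b i| ≤ ∑ i, (|a i| + |b i|) :=
      Finset.single_le_sum (f := fun i => |a i| + |b i|) (fun i _ => by positivity)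
        (Finset.mem_univ i)
    constructor
    · linarith [abs_nonneg (b i)]
    · linarith [abs_nonneg (a i)]
  obtain ⟨n, hn⟩ := exists_nat_ge B
  refine ⟨n, fun i => ⟨?_, ?_⟩⟩
  · have := (hB i).1
    have := neg_abs_le (a i)
    linarith
  · have := (hB i).2
    have := le_abs_self (b i)
    linarith

/-- the fattened box has nearly the same integral -/
theorem ww_le (r : ℕ) (a b : Fin r → ℝ) (hab : ∀ i, a i < b i) (ε : ℝ) (hε : 0 < ε) :
    ∃ h0 : ℝ, 0 < h0 ∧ ∀ h, 0 ≤ h → h ≤ h0 →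
      ww r a b h ≤ (∫ u in Set.Icc a b, kd r u) + ε := by
  have h1 : ∀ h : ℝ, 0 ≤ h → ww r a b h ≤ (∫ u in Set.Icc a b, kd r u) +
      ((∏ i, (b i - a i + 2 * h)) - ∏ i, (b i - a i)) := by
    intro h hh
    have hsub : Set.Icc a b ⊆ Set.Icc (fun i => a i - h) (fun i => b i + h) := by
      intro u hu
      simp only [Set.mem_Icc, Pi.le_def] at hu ⊢
      refine ⟨fun i => ?_, fun i => ?_⟩
      · linarith [hu.1 i]
      · linarith [hu.2 i]
    have hint : IntegrableOn (kd r) (Set.Icc (fun i => a i - h) (fun i => b i + h)) :=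
      (kd_continuous r).continuousOn.integrableOn_compact isCompact_Icc
    have h2 : ww r a b h - ∫ u in Set.Icc a b, kd r u =
        ∫ u in Set.Icc (fun i => a i - h) (fun i => b i + h) \ Set.Icc a b, kd r u := by
      unfold ww
      rw [setIntegral_sdiff measurableSet_Icc hint hsub]
    have h3 : ∫ u in Set.Icc (fun i => a i - h) (fun i => b i + h) \ Set.Icc a b, kd r u ≤
        ∫ u in Set.Icc (fun i => a i - h) (fun i => b i + h) \ Set.Icc a b, (1 : ℝ) := by
      apply setIntegral_mono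
      · exact hint.mono_set Set.sdiff_subset
      · apply IntegrableOn.mono_set _ Set.sdiff_subset
        exact integrableOn_const isCompact_Icc.measure_lt_top.ne
      · intro u
        exact kd_le r u
    have h4 : ∫ u in Set.Icc (fun i => a i - h) (fun i => b i + h) \ Set.Icc a b, (1 : ℝ) =
        (∏ i, (b i - a i + 2 * h)) - ∏ i, (b i - a i) := by
      rw [setIntegral_sdiff measurableSet_Icc
        (integrableOn_const isCompact_Icc.measure_lt_top.ne) hsub, setIntegral_const,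
        setIntegral_const, smul_eq_mul, smul_eq_mul, mul_one, mul_one, Measure.real, Measure.real,
        Real.volume_Icc_pi_toReal, Real.volume_Icc_pi_toReal]
      · congr 1
        apply Finset.prod_congr rfl
        intro i _
        ring
      · intro i
        exact (hab i).le
      · intro i
        have := hab i
        show a i - h ≤ b i + h
        linarith
    linarith
  have h2 : Tendsto (fun h : ℝ => (∏ i, (b i - a i + 2 * h)) - ∏ i, (b i - a i)) (𝓝 0)
      (𝓝 ((∏ i, (b i - a i + 2 * 0)) - ∏ i, (b i - a i))) := by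
    apply Continuous.tendsto
    fun_prop
  simp only [mul_zero, add_zero, sub_self] at h2
  have h3 := h2.eventually_lt_const hε
  rw [Metric.eventually_nhds_iff] at h3
  obtain ⟨δ, hδ, h4⟩ := h3
  refine ⟨δ / 2, by positivity, fun h hh hh2 => ?_⟩
  have h5 := h4 (y := h) (by
    rw [Real.dist_eq, sub_zero, abs_of_nonneg hh]
    linarith)
  linarith [h1 h hh]

namespace PD

variable {P : PD} {l : Filter ℝ}

theorem QTT (hl : l ≤ atTop) {r : ℕ} (h : P.Upper l (r + 1 + r)) (a b : Fin r → ℝ)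
    (hab : ∀ i, a i < b i) : ∃ C : ℝ, 0 ≤ C ∧ ∀ R : ℝ, 0 < R → ∀ ε : ℝ, 0 < ε → ∀ᶠ T in l,
      QQ R (tup (P.F T) (P.y T) r a b) (fun j => P.y T (j (Fin.last r)))
        (tup (P.F T) (P.y T) r a b) (fun j => P.y T (j (Fin.last r))) ≤
      ((∫ u in Set.Icc a b, kd r u) ^ 2 * R ^ 2 + C * R + ε) * MM T := by
  obtain ⟨b0, hb0⟩ := exists_b0 a b
  have ha : ∀ i, -(b0 : ℝ) ≤ a i := fun i => (hb0 i).1
  have hb : ∀ i, b i ≤ b0 := fun i => (hb0 i).2
  obtain ⟨C1, hC1, hmom⟩ := umom_pow hl h (1 / 2) (by norm_num)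
  set W : ℕ := 6 * b0 + 1 with hW
  set C : ℝ := 2 * (W * ((W : ℝ) + 1) ^ (r + 1 + r) + C1) with hC
  refine ⟨C, by positivity, fun R hR ε hε => ?_⟩
  set w : ℝ := ∫ u in Set.Icc a b, kd r u with hw
  have hw0 : 0 ≤ w := integral_nonneg (fun u => kd_nonneg r u)
  -- the choice of `ε1`
  have hg : Tendsto (fun e : ℝ => w * (w + e) * (R ^ 2 + e)) (𝓝[>] 0)
      (𝓝 (w * (w + 0) * (R ^ 2 + 0))) := by
    apply Tendsto.mono_left _ nhdsWithin_le_nhds
    apply Continuous.tendsto
    fun_prop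
  have hg2 := hg.eventually_lt_const (show w * (w + 0) * (R ^ 2 + 0) < w ^ 2 * R ^ 2 + ε / 2 by
    nlinarith)
  obtain ⟨ε1, hε1, hε2⟩ := (hg2.and self_mem_nhdsWithin).exists
  obtain ⟨h0, hh0, hwl⟩ := ww_le r a b hab ε1 hε2
  -- the mesh
  obtain ⟨K, hK⟩ := exists_nat_ge (2 * R / h0 + 8 * R ^ 2 / ε1 + 1)
  have hK0 : 0 ≤ 2 * R / h0 := by positivity
  have hK0' : 0 ≤ 8 * R ^ 2 / ε1 := by positivity
  have hKr : 1 ≤ (K : ℝ) := by linarith
  have hK1 : 1 ≤ K := by exact_mod_cast hKr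
  set δ : ℝ := 2 * R / K with hδ
  have hKpos : (0 : ℝ) < K := by linarith
  have hδ0 : 0 < δ := by positivity
  have hKδ : -R + K * δ = R := by
    rw [hδ]
    field_simp
    ring
  have hδ1 : δ ≤ h0 := by
    rw [hδ, div_le_iff₀ hKpos]
    have : 2 * R / h0 ≤ K := by linarith
    rw [div_le_iff₀ hh0] at this
    linarith
  have hδ2 : 4 * δ * R ≤ ε1 := by
    have h1 : 8 * R ^ 2 / ε1 ≤ K := by linarith
    rw [div_le_iff₀ hε2] at h1
    have h2 : 4 * δ * R = 8 * R ^ 2 / K := by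
      rw [hδ]
      ring
    rw [h2, div_le_iff₀ hKpos]
    linarith
  have hwd := hwl δ hδ0.le hδ1
  set Sg : ℝ := ∑ c ∈ range K, (wt R (-R + c * δ) + δ) with hSg
  have hc0 : ∀ c : ℕ, 0 ≤ wt R (-R + c * δ) + δ := fun c => by
    have := wt_nonneg R (-R + c * δ)
    linarith
  have hSg0 : 0 ≤ Sg := sum_nonneg (fun c _ => hc0 c)
  have hSg1 : δ * Sg ≤ R ^ 2 + ε1 := by
    have h1 := riemann (fun _ => 1) (wt R) continuous_const (fun _ => zero_le_one) 1
      (fun _ => le_rfl) (wt_lip R) (-R) R δ K hδ0 hKδ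
    have h2 : ∀ c : ℕ, ∫ _ in Set.Icc (-R + c * δ) (-R + (c + 1) * δ), (1 : ℝ) = δ := by
      intro c
      rw [setIntegral_const, Real.volume_real_Icc, smul_eq_mul, max_eq_left (by linarith)]
      ring
    simp_rw [h2, mul_one] at h1
    rw [wt_integral hR.le, ← sum_mul] at h1
    rw [mul_comm]
    refine h1.trans ?_
    nlinarith
  set ε' : ℝ := ε / (2 * (Sg + 1)) with hε'
  have hε'0 : 0 < ε' := by positivity
  have hε'1 : ε' * Sg ≤ ε / 2 := by
    rw [hε', div_mul_eq_mul_div, div_le_div_iff₀ (by positivity) (by norm_num)]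
    nlinarith
  have h1 : ∀ c ∈ range K, ∀ᶠ T in l, P.S (r + 1 + r)
      (Fin.append (Fin.cons (-R + c * δ) (fun i => a i + (-R + c * δ)) : Fin (r + 1) → ℝ) a)
      (Fin.append (Fin.cons (-R + (c + 1) * δ) (fun i => b i + (-R + (c + 1) * δ)) :
        Fin (r + 1) → ℝ) b) T / MM T ≤ δ * ((w + ε1) * w) + ε' := by
    intro c _
    have e1 : -R + ((c : ℝ) + 1) * δ = (-R + c * δ) + δ := by ring
    rw [e1]
    have h2 := h (Fin.append (Fin.cons (-R + c * δ) (fun i => a i + (-R + c * δ)) :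
        Fin (r + 1) → ℝ) a)
      (Fin.append (Fin.cons (-R + c * δ + δ) (fun i => b i + (-R + c * δ + δ)) :
        Fin (r + 1) → ℝ) b) (by
      intro i
      refine Fin.addCases (fun i => ?_) (fun i => ?_) i
      · rw [Fin.append_left, Fin.append_left]
        refine Fin.cases ?_ (fun i => ?_) i
        · rw [Fin.cons_zero, Fin.cons_zero]
          linarith
        · rw [Fin.cons_succ, Fin.cons_succ]
          have := hab i
          linarith
      · rw [Fin.append_right, Fin.append_right]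
        exact hab i) ε' hε'0
    have h3 := box2_le r a b (-R + c * δ) δ hδ0.le
    have h4 : δ * (ww r a b δ * w) ≤ δ * ((w + ε1) * w) :=
      mul_le_mul_of_nonneg_left (mul_le_mul_of_nonneg_right hwd hw0) hδ0.le
    filter_upwards [h2] with T h5
    linarith
  have h2 := (eventually_all_finset (range K)).mpr h1
  have h3 : ∀ᶠ T in l, 0 < MM T := hl (MM_tendsto.eventually_gt_atTop 0)
  have h4 : ∀ᶠ T : ℝ in l, 1 < T := hl (eventually_gt_atTop 1)
  filter_upwards [h2, h3, h4, hmom W (3 * b0)] with T t1 t2 t3 t4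
  have h5 := QTT_comb (P.F T) (P.y T) a b b0 ha hb (I T) (fun n hn => P.cell t3 hn) hR.le hδ0 K
    hK1 hKδ
  refine h5.trans ?_
  have h6 : ∑ i ∈ Finset.Ico 0 (I T),
      ((win (P.F T) (P.y T) (i - (3 * b0 : ℕ)) (6 * b0 + 1)).card : ℝ) ^ (2 * r + 2) ≤
      C * MM T := by
    have h7 := sum_shift (fun i => P.X T i W ^ (r + 1 + r + 1)) (fun i => by
      unfold X; positivity) (-((3 * b0 : ℕ) : ℤ)) (3 * b0) T (by omega) (by omega)
    have h8 : ∑ i ∈ Finset.Ico 0 (I T),
        ((win (P.F T) (P.y T) (i - (3 * b0 : ℕ)) (6 * b0 + 1)).card : ℝ) ^ (2 * r + 2) =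
        ∑ i ∈ Finset.Ico 0 (I T), P.X T (i + -((3 * b0 : ℕ) : ℤ)) W ^ (r + 1 + r + 1) := by
      apply sum_congr rfl
      intro i _
      unfold X
      rw [hW, ← sub_eq_add_neg]
      congr 1
      omega
    rw [h8]
    refine h7.trans ?_
    rw [hC]
    linarith
  have h9 : ∑ c ∈ range K, (wt R (-R + c * δ) + δ) * ((tup (P.F T) (P.y T) (r + 1 + r)
      (Fin.append (Fin.cons (-R + c * δ) (fun i => a i + (-R + c * δ)) : Fin (r + 1) → ℝ) a)
      (Fin.append (Fin.cons (-R + (c + 1) * δ) (fun i => b i + (-R + (c + 1) * δ)) :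
        Fin (r + 1) → ℝ) b)).card : ℝ) ≤ (w ^ 2 * R ^ 2 + ε) * MM T := by
    calc _ ≤ ∑ c ∈ range K, (wt R (-R + c * δ) + δ) * ((δ * ((w + ε1) * w) + ε') * MM T) := by
          apply sum_le_sum
          intro c hc
          apply mul_le_mul_of_nonneg_left _ (hc0 c)
          have h6 := t1 c hc
          rw [div_le_iff₀ t2] at h6
          exact h6
      _ = ((δ * Sg) * ((w + ε1) * w) + ε' * Sg) * MM T := by
          rw [hSg, ← sum_mul]
          ring
      _ ≤ _ := by
          apply mul_le_mul_of_nonneg_right _ t2.le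
          have h10 : (δ * Sg) * ((w + ε1) * w) ≤ (R ^ 2 + ε1) * ((w + ε1) * w) :=
            mul_le_mul_of_nonneg_right hSg1 (by positivity)
          linarith
  have h11 := mul_le_mul_of_nonneg_left h6 hR.le
  linarith

end PD

end Pool.Agent.H19.HL
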