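import Pool.Agent.H19.UH.Defect2

/-!
# A quadratic inequality for windows
-/

open Finset Filter Topology MeasureTheory

namespace Pool.Agent.H19.HL

/-- the indicator function of the window ending at `x` -/
noncomputable def wi (R x : ℝ) : ℝ → ℝ := (Set.Ioc (x - R) x).indicator (fun _ => (1 : ℝ))

theorem wi_integrable (R x : ℝ) (s : Set ℝ) : IntegrableOn (wi R x) s := by
  unfold wi
  apply Integrable.integrableOn
  rw [integrable_indicator_iff measurableSet_Ioc]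
  exact integrableOn_const measure_Ioc_lt_top.ne

theorem wi_mul (R x z : ℝ) : (fun u => wi R x u * wi R z u) =
    (Set.Ioc (max (x - R) (z - R)) (min x z)).indicator (fun _ => (1 : ℝ)) := by
  unfold wi
  ext u
  rw [← Set.Ioc_inter_Ioc]
  by_cases h1 : u ∈ Set.Ioc (x - R) x <;> by_cases h2 : u ∈ Set.Ioc (z - R) z
  · have h3 : u ∈ Set.Ioc (x - R) x ∩ Set.Ioc (z - R) z := ⟨h1, h2⟩
    rw [Set.indicator_of_mem h1, Set.indicator_of_mem h2, Set.indicator_of_mem h3]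
    norm_num
  · have h3 : u ∉ Set.Ioc (x - R) x ∩ Set.Ioc (z - R) z := fun h => h2 h.2
    rw [Set.indicator_of_notMem h2, Set.indicator_of_notMem h3, mul_zero]
  · have h3 : u ∉ Set.Ioc (x - R) x ∩ Set.Ioc (z - R) z := fun h => h1 h.1
    rw [Set.indicator_of_notMem h1, Set.indicator_of_notMem h3, zero_mul]
  · have h3 : u ∉ Set.Ioc (x - R) x ∩ Set.Ioc (z - R) z := fun h => h1 h.1
    rw [Set.indicator_of_notMem h1, Set.indicator_of_notMem h3, zero_mul]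

theorem wi_mul_integrable (R x z : ℝ) (s : Set ℝ) :
    IntegrableOn (fun u => wi R x u * wi R z u) s := by
  rw [wi_mul]
  apply Integrable.integrableOn
  rw [integrable_indicator_iff measurableSet_Ioc]
  exact integrableOn_const measure_Ioc_lt_top.ne

theorem wi_int {R M x : ℝ} (hR : 0 ≤ R) (h0 : 0 ≤ x) (hx : x ≤ M) :
    ∫ u in Set.Ioc (-R) M, wi R x u = R := by
  unfold wi
  rw [setIntegral_indicator measurableSet_Ioc, setIntegral_const, smul_eq_mul, mul_one,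
    Set.inter_eq_right.mpr (Set.Ioc_subset_Ioc (by linarith) hx), Real.volume_real_Ioc]
  rw [max_eq_left (by linarith)]
  ring

theorem wi_mul_int {R M x z : ℝ} (h0 : 0 ≤ x) (hx : x ≤ M) :
    ∫ u in Set.Ioc (-R) M, wi R x u * wi R z u = wt R (x - z) := by
  rw [wi_mul, setIntegral_indicator measurableSet_Ioc, setIntegral_const, smul_eq_mul, mul_one,
    Set.inter_eq_right.mpr (Set.Ioc_subset_Ioc (le_max_of_le_left (by linarith))
      (min_le_of_left_le hx)), Real.volume_real_Ioc]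
  unfold wt
  congr 1
  rcases le_total x z with h | h
  · rw [min_eq_left h, max_eq_right (by linarith), abs_of_nonpos (by linarith)]
    ring
  · rw [min_eq_right h, max_eq_left (by linarith), abs_of_nonneg (by linarith)]
    ring

theorem quad0 {ι : Type*} (Z : Finset ι) (c ζ : ι → ℝ) {M R : ℝ} (hR : 0 ≤ R) (hM : 0 ≤ M)
    (hζ : ∀ z ∈ Z, 0 ≤ ζ z ∧ ζ z ≤ M) (C0 : ℝ) :
    0 ≤ ∑ z ∈ Z, ∑ z' ∈ Z, c z * c z' * wt R (ζ z - ζ z') - 2 * C0 * R * ∑ z ∈ Z, c z +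
      C0 ^ 2 * (M + R) := by
  have h1 : 0 ≤ ∫ u in Set.Ioc (-R) M, (∑ z ∈ Z, c z * wi R (ζ z) u - C0) ^ 2 :=
    integral_nonneg (fun u => sq_nonneg _)
  have h2 : ∀ u, (∑ z ∈ Z, c z * wi R (ζ z) u - C0) ^ 2 =
      ∑ z ∈ Z, ∑ z' ∈ Z, c z * c z' * (wi R (ζ z) u * wi R (ζ z') u) -
      2 * C0 * ∑ z ∈ Z, c z * wi R (ζ z) u + C0 ^ 2 := by
    intro u
    have : ∑ z ∈ Z, ∑ z' ∈ Z, c z * c z' * (wi R (ζ z) u * wi R (ζ z') u) =
        (∑ z ∈ Z, c z * wi R (ζ z) u) ^ 2 := by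
      rw [sq, Finset.sum_mul_sum]
      apply Finset.sum_congr rfl
      intro z _
      apply Finset.sum_congr rfl
      intro z' _
      ring
    rw [this]
    ring
  simp_rw [h2] at h1
  have i1 : ∀ z z', IntegrableOn (fun u => c z * c z' * (wi R (ζ z) u * wi R (ζ z') u))
      (Set.Ioc (-R) M) := fun z z' => (wi_mul_integrable R (ζ z) (ζ z') _).const_mul _
  have i2 : ∀ z, IntegrableOn (fun u => ∑ z' ∈ Z, c z * c z' * (wi R (ζ z) u * wi R (ζ z') u))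
      (Set.Ioc (-R) M) := fun z => integrable_finsetSum _ (fun z' _ => i1 z z')
  have i3 : IntegrableOn (fun u => ∑ z ∈ Z, ∑ z' ∈ Z,
      c z * c z' * (wi R (ζ z) u * wi R (ζ z') u)) (Set.Ioc (-R) M) :=
    integrable_finsetSum _ (fun z _ => i2 z)
  have i4 : ∀ z, IntegrableOn (fun u => c z * wi R (ζ z) u) (Set.Ioc (-R) M) :=
    fun z => (wi_integrable R (ζ z) _).const_mul _
  have i5 : IntegrableOn (fun u => ∑ z ∈ Z, c z * wi R (ζ z) u) (Set.Ioc (-R) M) :=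
    integrable_finsetSum _ (fun z _ => i4 z)
  have i6 : IntegrableOn (fun u => 2 * C0 * ∑ z ∈ Z, c z * wi R (ζ z) u) (Set.Ioc (-R) M) :=
    i5.const_mul _
  have i7 : IntegrableOn (fun _ : ℝ => C0 ^ 2) (Set.Ioc (-R) M) :=
    integrableOn_const measure_Ioc_lt_top.ne
  have e0 : ∫ u in Set.Ioc (-R) M, (∑ z ∈ Z, ∑ z' ∈ Z,
      c z * c z' * (wi R (ζ z) u * wi R (ζ z') u) - 2 * C0 * ∑ z ∈ Z, c z * wi R (ζ z) u +
      C0 ^ 2) = (∫ u in Set.Ioc (-R) M, ∑ z ∈ Z, ∑ z' ∈ Z,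
      c z * c z' * (wi R (ζ z) u * wi R (ζ z') u)) -
      (∫ u in Set.Ioc (-R) M, 2 * C0 * ∑ z ∈ Z, c z * wi R (ζ z) u) +
      (∫ u in Set.Ioc (-R) M, C0 ^ 2) := by
    rw [← integral_sub i3 i6]
    exact integral_add (i3.sub i6) i7
  rw [e0, integral_const_mul,
    integral_finsetSum _ (fun z _ => i2 z), integral_finsetSum _ (fun z _ => i4 z)] at h1
  have e1 : ∀ z ∈ Z, ∫ u in Set.Ioc (-R) M,
      ∑ z' ∈ Z, c z * c z' * (wi R (ζ z) u * wi R (ζ z') u) =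
      ∑ z' ∈ Z, c z * c z' * wt R (ζ z - ζ z') := by
    intro z hz
    rw [integral_finsetSum _ (fun z' _ => i1 z z')]
    apply Finset.sum_congr rfl
    intro z' _
    rw [integral_const_mul, wi_mul_int (hζ z hz).1 (hζ z hz).2]
  have e2 : ∀ z ∈ Z, ∫ u in Set.Ioc (-R) M, c z * wi R (ζ z) u = c z * R := by
    intro z hz
    rw [integral_const_mul, wi_int hR (hζ z hz).1 (hζ z hz).2]
  rw [Finset.sum_congr rfl e1, Finset.sum_congr rfl e2, ← Finset.sum_mul, setIntegral_const,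
    Real.volume_real_Ioc, max_eq_left (by linarith), smul_eq_mul] at h1
  refine h1.trans (le_of_eq ?_)
  ring

/-- the sum of the tent function over pairs -/
noncomputable def QQ {ι κ : Type*} (R : ℝ) (A : Finset ι) (α : ι → ℝ) (B : Finset κ)
    (β : κ → ℝ) : ℝ := ∑ p ∈ A, ∑ q ∈ B, wt R (α p - β q)

theorem QQ_comm {ι κ : Type*} (R : ℝ) (A : Finset ι) (α : ι → ℝ) (B : Finset κ)
    (β : κ → ℝ) : QQ R A α B β = QQ R B β A α := by
  unfold QQ
  rw [Finset.sum_comm]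
  apply Finset.sum_congr rfl
  intro q _
  apply Finset.sum_congr rfl
  intro p _
  rw [← wt_neg]
  congr 1
  ring

theorem quad {ι κ : Type*} (A : Finset ι) (α : ι → ℝ) (B : Finset κ) (β : κ → ℝ) {M R : ℝ}
    (hR : 0 ≤ R) (hM : 0 ≤ M) (hα : ∀ p ∈ A, 0 ≤ α p ∧ α p ≤ M) (hβ : ∀ q ∈ B, 0 ≤ β q ∧ β q ≤ M)
    (w μ : ℝ) (hμ : 0 < μ) :
    R ^ 2 * A.card + w * R ^ 2 * B.card - w * R ^ 2 * (M + R) -
      μ ^ 2 / 2 * (QQ R A α A α - 2 * w * R ^ 2 * A.card + w ^ 2 * R ^ 2 * (M + R)) -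
      1 / (2 * μ ^ 2) * (QQ R B β B β - 2 * R ^ 2 * B.card + R ^ 2 * (M + R)) ≤
      QQ R A α B β := by
  classical
  have h := quad0 (A.disjSum B) (Sum.elim (fun _ => μ) (fun _ => μ⁻¹)) (Sum.elim α β) hR hM (by
    intro z hz
    rcases z with z | z
    · exact hα z (Finset.inl_mem_disjSum.mp hz)
    · exact hβ z (Finset.inr_mem_disjSum.mp hz)) (μ * w * R + R / μ)
  simp only [Finset.sum_disjSum, Sum.elim_inl, Sum.elim_inr, Finset.sum_add_distrib,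
    Finset.sum_const, nsmul_eq_mul, ← Finset.mul_sum] at h
  have e1 : ∑ p ∈ A, ∑ q ∈ A, wt R (α p - α q) = QQ R A α A α := rfl
  have e2 : ∑ p ∈ A, ∑ q ∈ B, wt R (α p - β q) = QQ R A α B β := rfl
  have e3 : ∑ p ∈ B, ∑ q ∈ A, wt R (β p - α q) = QQ R A α B β := QQ_comm R B β A α
  have e4 : ∑ p ∈ B, ∑ q ∈ B, wt R (β p - β q) = QQ R B β B β := rfl
  rw [e1, e2, e3, e4] at h
  have h5 : (μ * μ * QQ R A α A α + μ⁻¹ * μ * QQ R A α B β + (μ * μ⁻¹ * QQ R A α B β +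
      μ⁻¹ * μ⁻¹ * QQ R B β B β)) = μ ^ 2 * QQ R A α A α + 2 * QQ R A α B β +
      1 / μ ^ 2 * QQ R B β B β := by
    field_simp
    ring
  have h6 : 2 * (μ * w * R + R / μ) * R * ((A.card : ℝ) * μ + B.card * μ⁻¹) =
      2 * (R ^ 2 * A.card + w * R ^ 2 * B.card) + μ ^ 2 * (2 * w * R ^ 2 * A.card) +
      1 / μ ^ 2 * (2 * R ^ 2 * B.card) := by
    field_simp
    ring
  have h7 : (μ * w * R + R / μ) ^ 2 * (M + R) = 2 * (w * R ^ 2 * (M + R)) +
      μ ^ 2 * (w ^ 2 * R ^ 2 * (M + R)) + 1 / μ ^ 2 * (R ^ 2 * (M + R)) := by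
    field_simp
    ring
  have h8 : 1 / (2 * μ ^ 2) = 1 / μ ^ 2 / 2 := by
    field_simp
  rw [h8]
  nlinarith

end Pool.Agent.H19.HL
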