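import Pool.Graph.R_seed8.H153R4.Pl
import Pool.Agent.H19.UH.Fisch

/-!
# The reproducing property of the sine kernel
-/

open Finset Filter Topology MeasureTheory Complex FourierTransform
open scoped ENNReal

namespace Pool.Agent.H19.HL

/-- the exponential on the unit interval -/
noncomputable def ex (x : ℝ) : ℝ → ℂ :=
  Set.indicator (Set.Icc (-(1 / 2) : ℝ) (1 / 2)) (fun t => cexp (((2 * Real.pi * t * x : ℝ) : ℂ) * I))

theorem ex_integrable (x : ℝ) : Integrable (ex x) := by
  unfold ex
  rw [integrable_indicator_iff measurableSet_Icc]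
  apply Continuous.integrableOn_Icc
  fun_prop

theorem ex_memLp (x : ℝ) : MemLp (ex x) 2 := by
  have h : MemLp (ex x) ∞ := by
    apply memLp_top_of_bound (ex_integrable x).aestronglyMeasurable 1
    refine Eventually.of_forall (fun t => ?_)
    unfold ex
    by_cases ht : t ∈ Set.Icc (-(1 / 2) : ℝ) (1 / 2)
    · rw [Set.indicator_of_mem ht, norm_exp_ofReal_mul_I]
    · rw [Set.indicator_of_notMem ht, norm_zero]
      exact zero_le_one
  apply h.mono_exponent_of_measure_support_ne_top (s := Set.Icc (-(1 / 2) : ℝ) (1 / 2))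
  · intro t ht
    unfold ex
    exact Set.indicator_of_notMem ht _
  · exact isCompact_Icc.measure_lt_top.ne
  · exact le_top

theorem cexp_integral (x : ℝ) :
    ∫ t in (-(1 / 2) : ℝ)..(1 / 2), cexp (((2 * Real.pi * t * x : ℝ) : ℂ) * I) =
      (Real.sinc (Real.pi * x) : ℂ) := by
  rcases eq_or_ne x 0 with hx | hx
  · subst hx
    simp
    norm_num
  · have hpi := Real.pi_pos
    have h1 : (2 * Real.pi * x) ≠ 0 := by positivity
    have h2 := integral_exp_mul_I_eq_sinc (Real.pi * x)
    have h3 : ∫ t in (-(1 / 2) : ℝ)..(1 / 2), cexp (((2 * Real.pi * t * x : ℝ) : ℂ) * I) =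
        ∫ t in (-(1 / 2) : ℝ)..(1 / 2), (fun s : ℝ => cexp (s * I)) (2 * Real.pi * x * t) := by
      apply intervalIntegral.integral_congr
      intro t _
      simp only
      congr 2
      push_cast
      ring
    rw [h3, intervalIntegral.integral_comp_mul_left (fun s : ℝ => cexp (s * I)) h1]
    have e1 : 2 * Real.pi * x * (1 / 2) = Real.pi * x := by ring
    have e2 : 2 * Real.pi * x * (-(1 / 2)) = -(Real.pi * x) := by ring
    rw [e1, e2, h2, real_smul]
    have hxC : (x : ℂ) ≠ 0 := by exact_mod_cast hx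
    have hpC : (Real.pi : ℂ) ≠ 0 := by exact_mod_cast hpi.ne'
    push_cast
    field_simp

theorem ex_fourier (x v : ℝ) : 𝓕 (ex x) v = (Real.sinc (Real.pi * (x - v)) : ℂ) := by
  rw [Real.fourier_real_eq_integral_exp_smul, ← cexp_integral,
    intervalIntegral.integral_of_le (by norm_num), ← integral_Icc_eq_integral_Ioc,
    ← integral_indicator measurableSet_Icc]
  apply integral_congr_ae
  refine Eventually.of_forall (fun t => ?_)
  unfold ex
  simp only
  by_cases ht : t ∈ Set.Icc (-(1 / 2) : ℝ) (1 / 2)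
  · rw [Set.indicator_of_mem ht, Set.indicator_of_mem ht, smul_eq_mul, ← Complex.exp_add]
    congr 1
    push_cast
    ring
  · rw [Set.indicator_of_notMem ht, Set.indicator_of_notMem ht, smul_zero]

theorem repro_complex (x y : ℝ) :
    MemLp (fun v : ℝ => (Real.sinc (Real.pi * (x - v)) : ℂ)) 2 ∧
    ∫ v : ℝ, (Real.sinc (Real.pi * (x - v)) : ℂ) *
      (starRingEnd ℂ) (Real.sinc (Real.pi * (y - v)) : ℂ) = (Real.sinc (Real.pi * (x - y)) : ℂ) := by
  have a1 := H153R4.fourier_ae_eq (ex x) (ex_integrable x) (ex_memLp x)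
  have a2 := H153R4.fourier_ae_eq (ex y) (ex_integrable y) (ex_memLp y)
  have hx : 𝓕 (ex x) = fun v : ℝ => (Real.sinc (Real.pi * (x - v)) : ℂ) := by
    funext v
    exact ex_fourier x v
  have hy : 𝓕 (ex y) = fun v : ℝ => (Real.sinc (Real.pi * (y - v)) : ℂ) := by
    funext v
    exact ex_fourier y v
  rw [hx] at a1
  rw [hy] at a2
  refine ⟨(memLp_congr_ae a1).mp (Lp.memLp _), ?_⟩
  have h1 := Lp.inner_fourier_eq ((ex_memLp y).toLp (ex y)) ((ex_memLp x).toLp (ex x))
  rw [L2.inner_def, L2.inner_def] at h1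
  have h2 : ∫ v : ℝ, inner ℂ ((𝓕 ((ex_memLp y).toLp (ex y)) : Lp ℂ 2 (volume : Measure ℝ)) v)
      ((𝓕 ((ex_memLp x).toLp (ex x)) : Lp ℂ 2 (volume : Measure ℝ)) v) =
      ∫ v : ℝ, (Real.sinc (Real.pi * (x - v)) : ℂ) *
      (starRingEnd ℂ) (Real.sinc (Real.pi * (y - v)) : ℂ) := by
    apply integral_congr_ae
    filter_upwards [a1, a2] with v h3 h4
    rw [h3, h4, RCLike.inner_apply]
  have h3 : ∫ t : ℝ, inner ℂ (((ex_memLp y).toLp (ex y) : Lp ℂ 2 (volume : Measure ℝ)) t)
      (((ex_memLp x).toLp (ex x) : Lp ℂ 2 (volume : Measure ℝ)) t) =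
      (Real.sinc (Real.pi * (x - y)) : ℂ) := by
    rw [← cexp_integral, intervalIntegral.integral_of_le (by norm_num),
      ← integral_Icc_eq_integral_Ioc, ← integral_indicator measurableSet_Icc]
    apply integral_congr_ae
    filter_upwards [(ex_memLp x).coeFn_toLp, (ex_memLp y).coeFn_toLp] with t h4 h5
    rw [h4, h5, RCLike.inner_apply]
    unfold ex
    by_cases ht : t ∈ Set.Icc (-(1 / 2) : ℝ) (1 / 2)
    · rw [Set.indicator_of_mem ht, Set.indicator_of_mem ht, Set.indicator_of_mem ht,
        ← Complex.exp_conj, ← Complex.exp_add]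
      congr 1
      rw [map_mul, conj_ofReal, conj_I]
      push_cast
      ring
    · rw [Set.indicator_of_notMem ht, Set.indicator_of_notMem ht, Set.indicator_of_notMem ht]
      simp
  rw [h2, h3] at h1
  exact h1

/-- the sine kernel is square integrable -/
theorem sinc_memLp (x : ℝ) : MemLp (fun v : ℝ => Real.sinc (Real.pi * (v - x))) 2 := by
  have h1 := (repro_complex x x).1.re
  refine (memLp_congr_ae (Eventually.of_forall (fun v => ?_))).mp h1
  simp only [RCLike.re_to_complex, ofReal_re]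
  rw [← Real.sinc_neg]
  congr 1
  ring

theorem repro_integrable (x y : ℝ) :
    Integrable (fun v : ℝ => Real.sinc (Real.pi * (v - x)) * Real.sinc (Real.pi * (v - y))) :=
  (sinc_memLp x).integrable_mul (sinc_memLp y)

/-- **The reproducing property.** -/
theorem repro (x y : ℝ) :
    ∫ v : ℝ, Real.sinc (Real.pi * (v - x)) * Real.sinc (Real.pi * (v - y)) =
      Real.sinc (Real.pi * (x - y)) := by
  have h1 := (repro_complex x y).2
  have h2 : ∫ v : ℝ, (Real.sinc (Real.pi * (x - v)) : ℂ) *
      (starRingEnd ℂ) (Real.sinc (Real.pi * (y - v)) : ℂ) =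
      ((∫ v : ℝ, Real.sinc (Real.pi * (v - x)) * Real.sinc (Real.pi * (v - y)) : ℝ) : ℂ) := by
    rw [← integral_complex_ofReal]
    apply integral_congr_ae
    refine Eventually.of_forall (fun v => ?_)
    simp only
    rw [conj_ofReal, ← ofReal_mul]
    congr 2
    · rw [← Real.sinc_neg]
      congr 1
      ring
    · rw [← Real.sinc_neg]
      congr 1
      ring
  rw [h2] at h1
  exact_mod_cast h1

end Pool.Agent.H19.HL
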