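import Pool.Agent.H19.UH.Quad
import Pool.Agent.H19.HL.Step

/-!
# Upper bounds for sums over tuples with one more index
-/

open Finset Filter Topology MeasureTheory

namespace Pool.Agent.H19.HL

theorem mem_tup_cons {F : Finset ℕ} {y : ℕ → ℝ} {r : ℕ} {p q : ℝ} {a b : Fin r → ℝ}
    {z : Fin (r + 2) → ℕ} :
    z ∈ tup F y (r + 1) (Fin.cons p a) (Fin.cons q b) ↔ (∀ i, z i ∈ F) ∧ Function.Injective z ∧
      y (z 0) - y (z (Fin.last (r + 1))) ∈ Set.Icc p q ∧
      ∀ i : Fin r, y (z i.succ.castSucc) - y (z (Fin.last (r + 1))) ∈ Set.Icc (a i) (b i) := by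
  rw [mem_tup, Fin.forall_fin_succ (P := fun i : Fin (r + 1) =>
    y (z i.castSucc) - y (z (Fin.last (r + 1))) ∈
      Set.Icc ((Fin.cons p a : Fin (r + 1) → ℝ) i) ((Fin.cons q b : Fin (r + 1) → ℝ) i))]
  simp only [Fin.cons_zero, Fin.cons_succ, Fin.castSucc_zero]

/-- the difference of the first and the last point -/
noncomputable def vv (y : ℕ → ℝ) {r : ℕ} (z : Fin (r + 2) → ℕ) : ℝ :=
  y (z 0) - y (z (Fin.last (r + 1)))

theorem exists_cell (p q h v : ℝ) (K : ℕ) (hK1 : 1 ≤ K) (hh : 0 < h) (hK : p + K * h = q)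
    (hv : v ∈ Set.Icc p q) : ∃ c : ℕ, c < K ∧ p + c * h ≤ v ∧ v ≤ p + (c + 1) * h := by
  have e1 : 0 ≤ (v - p) / h := div_nonneg (by linarith [hv.1]) hh.le
  rcases lt_or_ge ⌊(v - p) / h⌋₊ K with h2 | h2
  · refine ⟨⌊(v - p) / h⌋₊, h2, ?_, ?_⟩
    · have := Nat.floor_le e1
      rw [le_div_iff₀ hh] at this
      linarith
    · have := Nat.lt_floor_add_one ((v - p) / h)
      rw [div_lt_iff₀ hh] at this
      linarith
  · refine ⟨K - 1, by omega, ?_, ?_⟩
    · have h3 : (K : ℝ) ≤ (v - p) / h := (Nat.le_floor_iff e1).mp h2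
      rw [le_div_iff₀ hh] at h3
      have h4 : ((K - 1 : ℕ) : ℝ) ≤ K := by exact_mod_cast Nat.sub_le K 1
      nlinarith
    · have h4 : ((K - 1 : ℕ) : ℝ) + 1 = K := by
        rw [Nat.cast_sub hK1, Nat.cast_one]; ring
      rw [h4, hK]
      exact hv.2

theorem sum_cells (F : Finset ℕ) (y : ℕ → ℝ) {r : ℕ} (a b : Fin r → ℝ) (p q h : ℝ) (K : ℕ)
    (hK1 : 1 ≤ K) (hh : 0 < h) (hK : p + K * h = q) (φ : ℝ → ℝ) (hφ0 : ∀ v, 0 ≤ φ v)
    (hφ : ∀ v v', |φ v - φ v'| ≤ |v - v'|) :
    ∑ z ∈ tup F y (r + 1) (Fin.cons p a) (Fin.cons q b), φ (vv y z) ≤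
      ∑ c ∈ range K, (φ (p + c * h) + h) *
        (tup F y (r + 1) (Fin.cons (p + c * h) a) (Fin.cons (p + (c + 1) * h) b)).card := by
  classical
  have h1 : ∀ z ∈ tup F y (r + 1) (Fin.cons p a) (Fin.cons q b), φ (vv y z) ≤
      ∑ c ∈ range K, if z ∈ tup F y (r + 1) (Fin.cons (p + c * h) a)
        (Fin.cons (p + (c + 1) * h) b) then (φ (p + c * h) + h) else 0 := by
    intro z hz
    rw [mem_tup_cons] at hz
    obtain ⟨z1, z2, z3, z4⟩ := hz
    obtain ⟨c, hc, hc1, hc2⟩ : ∃ c : ℕ, c < K ∧ p + c * h ≤ vv y z ∧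
        vv y z ≤ p + (c + 1) * h := exists_cell p q h (vv y z) K hK1 hh hK z3
    have hmem : z ∈ tup F y (r + 1) (Fin.cons (p + c * h) a)
        (Fin.cons (p + (c + 1) * h) b) := by
      rw [mem_tup_cons]
      exact ⟨z1, z2, ⟨hc1, hc2⟩, z4⟩
    have h5 : φ (vv y z) ≤ φ (p + c * h) + h := by
      have h6 := hφ (vv y z) (p + c * h)
      have h7 : |vv y z - (p + c * h)| ≤ h := by
        rw [abs_of_nonneg (by linarith)]
        linarith
      have h8 := le_abs_self (φ (vv y z) - φ (p + c * h))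
      linarith
    refine h5.trans ?_
    have h9 := Finset.single_le_sum (f := fun c : ℕ =>
      if z ∈ tup F y (r + 1) (Fin.cons (p + c * h) a)
        (Fin.cons (p + (c + 1) * h) b) then (φ (p + c * h) + h) else 0) (s := range K)
        (fun c _ => by
          split_ifs
          · have := hφ0 (p + c * h)
            linarith
          · exact le_rfl) (mem_range.mpr hc)
    simp only [if_pos hmem] at h9
    exact h9
  refine (sum_le_sum h1).trans ?_
  rw [sum_comm]
  apply sum_le_sum
  intro c _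
  rw [← sum_filter, sum_const, nsmul_eq_mul, mul_comm]
  have h2 : 0 ≤ φ (p + c * h) + h := by
    have := hφ0 (p + c * h)
    linarith
  apply mul_le_mul_of_nonneg_left _ h2
  have h3 : (tup F y (r + 1) (Fin.cons p a) (Fin.cons q b)).filter (fun z =>
      z ∈ tup F y (r + 1) (Fin.cons (p + c * h) a) (Fin.cons (p + (c + 1) * h) b)) ⊆
      tup F y (r + 1) (Fin.cons (p + c * h) a) (Fin.cons (p + (c + 1) * h) b) := by
    intro z hz
    exact (mem_filter.mp hz).2
  exact_mod_cast card_le_card h3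

/-- Riemann sums -/
theorem riemann (G φ : ℝ → ℝ) (hG : Continuous G) (hG0 : ∀ v, 0 ≤ G v) (V : ℝ)
    (hV : ∀ v, G v ≤ V) (hφ : ∀ v v', |φ v - φ v'| ≤ |v - v'|) (p q h : ℝ) (K : ℕ)
    (hh : 0 < h) (hK : p + K * h = q) :
    ∑ c ∈ range K, (φ (p + c * h) + h) * ∫ v in Set.Icc (p + c * h) (p + (c + 1) * h), G v ≤
      (∫ v in Set.Icc p q, φ v * G v) + 2 * h * (V * (q - p)) := by
  have hφc : Continuous φ := by
    have : LipschitzWith 1 φ := by
      apply LipschitzWith.of_dist_le_mul
      intro x z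
      rw [Real.dist_eq, Real.dist_eq, NNReal.coe_one, one_mul]
      exact hφ x z
    exact this.continuous
  have hKh : 0 ≤ K * h := by positivity
  have hpq : p ≤ q := by linarith
  have h1 : ∀ c : ℕ, (φ (p + c * h) + h) * ∫ v in Set.Icc (p + c * h) (p + (c + 1) * h), G v ≤
      ∫ v in (p + (c : ℕ) * h)..(p + ((c + 1 : ℕ) : ℝ) * h), (φ v + 2 * h) * G v := by
    intro c
    have hle : p + (c : ℝ) * h ≤ p + ((c + 1 : ℕ) : ℝ) * h := by
      push_cast
      nlinarith
    rw [intervalIntegral.integral_of_le hle, ← integral_Icc_eq_integral_Ioc, ← integral_const_mul]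
    push_cast
    apply setIntegral_mono_on
    · exact (continuous_const.mul hG).continuousOn.integrableOn_compact isCompact_Icc
    · exact ((hφc.add continuous_const).mul hG).continuousOn.integrableOn_compact isCompact_Icc
    · exact measurableSet_Icc
    · intro v hv
      apply mul_le_mul_of_nonneg_right _ (hG0 v)
      have h2 := hφ (p + c * h) v
      have h3 : |p + c * h - v| ≤ h := by
        rw [abs_of_nonpos (by linarith [hv.1])]
        linarith [hv.2]
      have h4 := le_abs_self (φ (p + c * h) - φ v)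
      linarith
  have hcont : Continuous (fun v => (φ v + 2 * h) * G v) := (hφc.add continuous_const).mul hG
  have h2 : ∑ c ∈ range K, ∫ v in (p + (c : ℕ) * h)..(p + ((c + 1 : ℕ) : ℝ) * h),
      (φ v + 2 * h) * G v = ∫ v in p..q, (φ v + 2 * h) * G v := by
    have := intervalIntegral.sum_integral_adjacent_intervals (μ := volume)
      (f := fun v => (φ v + 2 * h) * G v)
      (a := fun c : ℕ => p + (c : ℝ) * h) (n := K) (fun c _ => hcont.intervalIntegrable _ _)
    rw [this]
    simp only [Nat.cast_zero, zero_mul, add_zero, hK]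
  calc ∑ c ∈ range K, (φ (p + c * h) + h) * ∫ v in Set.Icc (p + c * h) (p + (c + 1) * h), G v
      ≤ ∑ c ∈ range K, ∫ v in (p + (c : ℕ) * h)..(p + ((c + 1 : ℕ) : ℝ) * h),
        (φ v + 2 * h) * G v := sum_le_sum (fun c _ => h1 c)
    _ = ∫ v in p..q, (φ v + 2 * h) * G v := h2
    _ = (∫ v in p..q, φ v * G v) + 2 * h * ∫ v in p..q, G v := by
        rw [← intervalIntegral.integral_const_mul, ← intervalIntegral.integral_add]
        · apply intervalIntegral.integral_congr
          intro v _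
          simp only
          ring
        · exact (hφc.mul hG).intervalIntegrable _ _
        · exact (continuous_const.mul hG).intervalIntegrable _ _
    _ ≤ _ := by
        have h5 : ∫ v in p..q, G v ≤ V * (q - p) := by
          calc ∫ v in p..q, G v ≤ ∫ _ in p..q, V := by
                apply intervalIntegral.integral_mono_on hpq (hG.intervalIntegrable _ _)
                  intervalIntegrable_const
                intro v _
                exact hV v
            _ = V * (q - p) := by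
                rw [intervalIntegral.integral_const, smul_eq_mul, mul_comm]
        have h6 : ∫ v in p..q, φ v * G v = ∫ v in Set.Icc p q, φ v * G v := by
          rw [intervalIntegral.integral_of_le hpq, ← integral_Icc_eq_integral_Ioc]
        rw [h6]
        have h7 : 2 * h * ∫ v in p..q, G v ≤ 2 * h * (V * (q - p)) :=
          mul_le_mul_of_nonneg_left h5 (by positivity)
        linarith

namespace PD

variable {P : PD} {l : Filter ℝ}

/-- the upper half of the correlation statement with `r` differences, along a filter -/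
def Upper (P : PD) (l : Filter ℝ) (r : ℕ) : Prop :=
  ∀ a b : Fin r → ℝ, (∀ i, a i < b i) → ∀ ε : ℝ, 0 < ε →
    ∀ᶠ T in l, P.S r a b T / MM T ≤ (∫ u in Set.Icc a b, kd r u) + ε

theorem Level.upper {r : ℕ} (h : P.Level l r) : P.Upper l r := by
  intro a b hab ε hε
  have h1 := (h a b hab).eventually_lt_const
    (show ∫ u in Set.Icc a b, kd r u < (∫ u in Set.Icc a b, kd r u) + ε by linarith)
  filter_upwards [h1] with T h2
  exact h2.le

/-- the upper bound for sums of a test function -/
theorem ut (hl : l ≤ atTop) {r : ℕ} (h : P.Upper l (r + 1)) (a b : Fin r → ℝ)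
    (hab : ∀ i, a i < b i) (p q : ℝ) (hpq : p < q) (φ : ℝ → ℝ) (hφ0 : ∀ v, 0 ≤ φ v)
    (hφ : ∀ v v', |φ v - φ v'| ≤ |v - v'|) (ε : ℝ) (hε : 0 < ε) :
    ∀ᶠ T in l, ∑ z ∈ tup (P.F T) (P.y T) (r + 1) (Fin.cons p a) (Fin.cons q b),
      φ (vv (P.y T) z) ≤ ((∫ v in Set.Icc p q, φ v * GG r a b v) + ε) * MM T := by
  set V : ℝ := (volume (Set.Icc a b)).toReal with hV
  have hV0 : 0 ≤ V := ENNReal.toReal_nonneg
  obtain ⟨K, hK⟩ := exists_nat_ge (4 * (V * (q - p)) * (q - p) / ε + 1)
  have hpq' : 0 < q - p := by linarith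
  have hKr : 1 ≤ (K : ℝ) := by
    have : 0 ≤ 4 * (V * (q - p)) * (q - p) / ε := by positivity
    linarith
  have hK1 : 1 ≤ K := by exact_mod_cast hKr
  have hK0 : (0 : ℝ) < K := by linarith
  set h' : ℝ := (q - p) / K with hh'
  have hh0 : 0 < h' := by positivity
  have hKh : p + K * h' = q := by
    rw [hh']
    field_simp
    ring
  have hsm : 2 * h' * (V * (q - p)) ≤ ε / 2 := by
    have h1 : 4 * (V * (q - p)) * (q - p) / ε ≤ K := by linarith
    rw [div_le_iff₀ hε] at h1
    have h2 : 2 * h' * (V * (q - p)) = 2 * (q - p) * (V * (q - p)) / K := by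
      rw [hh']
      ring
    rw [h2, div_le_iff₀ hK0]
    linarith
  set Sg : ℝ := ∑ c ∈ range K, (φ (p + c * h') + h') with hSg
  have hc0 : ∀ c : ℕ, 0 ≤ φ (p + c * h') + h' := fun c => by
    have := hφ0 (p + c * h')
    linarith
  have hSg0 : 0 ≤ Sg := sum_nonneg (fun c _ => hc0 c)
  set ε' : ℝ := ε / (2 * (Sg + 1)) with hε'
  have hε'0 : 0 < ε' := by positivity
  have hε'1 : ε' * Sg ≤ ε / 2 := by
    rw [hε', div_mul_eq_mul_div, div_le_div_iff₀ (by positivity) (by norm_num)]
    nlinarith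
  have h1 : ∀ c ∈ range K, ∀ᶠ T in l,
      P.S (r + 1) (Fin.cons (p + c * h') a) (Fin.cons (p + (c + 1) * h') b) T / MM T ≤
      (∫ v in Set.Icc (p + c * h') (p + (c + 1) * h'), GG r a b v) + ε' := by
    intro c _
    have h2 := h (Fin.cons (p + c * h') a) (Fin.cons (p + (c + 1) * h') b) (by
      intro i
      refine Fin.cases ?_ (fun i => ?_) i
      · rw [Fin.cons_zero, Fin.cons_zero]
        linarith
      · rw [Fin.cons_succ, Fin.cons_succ]
        exact hab i) ε' hε'0
    rw [fubini r _ _ a b _ (kd_continuous (r + 1))] at h2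
    exact h2
  have h2 := (eventually_all_finset (range K)).mpr h1
  have h3 : ∀ᶠ T in l, 0 < MM T := hl (MM_tendsto.eventually_gt_atTop 0)
  filter_upwards [h2, h3] with T h4 h5
  refine (sum_cells (P.F T) (P.y T) a b p q h' K hK1 hh0 hKh φ hφ0 hφ).trans ?_
  calc ∑ c ∈ range K, (φ (p + c * h') + h') *
        ((tup (P.F T) (P.y T) (r + 1) (Fin.cons (p + c * h') a)
          (Fin.cons (p + (c + 1) * h') b)).card : ℝ)
      ≤ ∑ c ∈ range K, (φ (p + c * h') + h') *
        (((∫ v in Set.Icc (p + c * h') (p + (c + 1) * h'), GG r a b v) + ε') * MM T) := by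
        apply sum_le_sum
        intro c hc
        apply mul_le_mul_of_nonneg_left _ (hc0 c)
        have h6 := h4 c hc
        rw [div_le_iff₀ h5] at h6
        exact h6
    _ = (∑ c ∈ range K, (φ (p + c * h') + h') *
        (∫ v in Set.Icc (p + c * h') (p + (c + 1) * h'), GG r a b v) + ε' * Sg) * MM T := by
        rw [hSg, mul_sum, ← sum_add_distrib, sum_mul]
        apply sum_congr rfl
        intro c _
        ring
    _ ≤ _ := by
        apply mul_le_mul_of_nonneg_right _ h5.le
        have h7 := riemann (GG r a b) φ (GG_continuous r a b) (GG_nonneg r a b) V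
          (GG_le r a b) hφ p q h' K hh0 hKh
        linarith

end PD

end Pool.Agent.H19.HL
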