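import Pool.Agent.H19.UH.App

/-!
# Moments and descent from the upper halves only
-/

open Finset Filter Topology MeasureTheory

namespace Pool.Agent.H19.HL

namespace PD

variable {P : PD} {l : Filter ℝ}

theorem umom_desc (hl : l ≤ atTop) {q : ℕ} (h : P.Upper l q) (R K : ℕ) :
    ∀ᶠ T in l, ∑ i ∈ J K T, ((win (P.F T) (P.y T) i R).card.descFactorial (q + 1) : ℝ) ≤
      (R * ((R : ℝ) + 1) ^ q + 1) * MM T := by
  have h1 : ∀ s ∈ range R, ∀ᶠ T in l, P.S q (fun _ => -((s : ℝ) + 1))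
      (fun _ => (R : ℝ) - s) T / MM T ≤ ((R : ℝ) + 1) ^ q + 1 / ((R : ℝ) + 1) := by
    intro s _
    have h2 := h (fun _ => -((s : ℝ) + 1)) (fun _ => (R : ℝ) - s) (by
      intro i
      have : (0 : ℝ) ≤ R := Nat.cast_nonneg _
      linarith) (1 / ((R : ℝ) + 1)) (by positivity)
    filter_upwards [h2] with T h3
    linarith [box_le q R s]
  have h4 := (eventually_all_finset (range R)).mpr h1
  have h5 : ∀ᶠ T in l, 0 < MM T := hl (MM_tendsto.eventually_gt_atTop 0)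
  filter_upwards [h4, h5] with T h6 h7
  have h9 := sum_le_sum h6
  rw [sum_const, card_range, nsmul_eq_mul, ← Finset.sum_div, div_le_iff₀ h7] at h9
  have h10 : (R : ℝ) * (((R : ℝ) + 1) ^ q + 1 / ((R : ℝ) + 1)) ≤ R * ((R : ℝ) + 1) ^ q + 1 := by
    have : (R : ℝ) * (1 / ((R : ℝ) + 1)) ≤ 1 := by
      rw [mul_one_div, div_le_one (by positivity)]
      linarith
    linarith
  refine le_trans ?_ (h9.trans (mul_le_mul_of_nonneg_right h10 h7.le))
  have h8 := sum_desc (P.F T) (P.y T) R q (J K T)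
  unfold S
  exact_mod_cast h8

theorem umom_pow (hl : l ≤ atTop) {q : ℕ} (h : P.Upper l q) (ε : ℝ) (hε : 0 < ε) :
    ∃ C : ℝ, 0 ≤ C ∧ ∀ R K : ℕ, ∀ᶠ T in l, (1 - ε) * ∑ i ∈ J K T, P.X T i R ^ (q + 1) ≤
      (R * ((R : ℝ) + 1) ^ q + C) * MM T := by
  obtain ⟨C, hC, h1⟩ := pow_le_desc (q + 1) (by omega) ε hε
  refine ⟨1 + 2 * C, by positivity, fun R K => ?_⟩
  have h2 := umom_desc hl h R K
  have h3 : ∀ᶠ T in l, ((J K T).card : ℝ) ≤ (1 + 1) * MM T := hl (card_J_le K 1 one_pos)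
  filter_upwards [h2, h3] with T h4 h5
  rw [Finset.mul_sum]
  calc ∑ i ∈ J K T, (1 - ε) * P.X T i R ^ (q + 1)
      ≤ ∑ i ∈ J K T, (((win (P.F T) (P.y T) i R).card.descFactorial (q + 1) : ℝ) + C) :=
        sum_le_sum (fun i _ => h1 _)
    _ = ∑ i ∈ J K T, ((win (P.F T) (P.y T) i R).card.descFactorial (q + 1) : ℝ) +
        (J K T).card * C := by
        rw [sum_add_distrib, sum_const, nsmul_eq_mul]
    _ ≤ (R * ((R : ℝ) + 1) ^ q + 1) * MM T + (1 + 1) * MM T * C :=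
        add_le_add h4 (mul_le_mul_of_nonneg_right h5 hC)
    _ = _ := by ring

/-- the windows are concentrated -/
theorem uconc (hl : l ≤ atTop) {q : ℕ} (hq : 1 ≤ q) (h : P.Upper l q) (δ : ℝ) (hδ : 0 < δ) :
    ∃ R0 : ℕ, ∀ R : ℕ, R0 ≤ R → ∀ K : ℕ, R ≤ K → ∀ᶠ T in l,
      ∑ i ∈ J K T, |P.X T i R - R| ^ (q + 1) ≤ δ * (R : ℝ) ^ (q + 1) * MM T := by
  set ε : ℝ := min (1 / 2) (δ / (2 * (q + 1) + 3)) with hεd
  have hε : 0 < ε := lt_min (by norm_num) (by positivity)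
  have hε1 : ε ≤ 1 / 2 := min_le_left _ _
  have hε2 : ε * (2 * (q + 1) + 3) ≤ δ := by
    have := min_le_right (1 / 2 : ℝ) (δ / (2 * (q + 1) + 3))
    rw [← hεd, le_div_iff₀ (by positivity)] at this
    exact this
  obtain ⟨C, hC, h1⟩ := umom_pow hl h ε hε
  have h2 := (ratio_tendsto q C).eventually_lt_const (show (1 : ℝ) < 1 + ε by linarith)
  obtain ⟨R1, hR1⟩ := eventually_atTop.mp h2
  refine ⟨max R1 1, fun R hR K hK => ?_⟩
  have hR1' : R1 ≤ R := (le_max_left _ _).trans hR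
  have hRpos : 1 ≤ R := (le_max_right _ _).trans hR
  have hRr : (0 : ℝ) < R := by exact_mod_cast hRpos
  have h3 := hR1 R hR1'
  rw [div_lt_iff₀ (by positivity)] at h3
  have h4 : ∀ᶠ T in l, ((J K T).card : ℝ) ≤ (1 + ε) * MM T := hl (card_J_le K ε hε)
  have h5 : ∀ᶠ T in l, (1 - ε) * MM T ≤ P.N T := hl (P.N_ge ε hε)
  have h6 : ∀ᶠ T in l, 0 < MM T := hl (MM_tendsto.eventually_gt_atTop 0)
  have h7 : ∀ᶠ T : ℝ in l, 1 < T := hl (eventually_gt_atTop 1)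
  filter_upwards [h1 R K, h4, h5, h6, h7] with T g1 g2 g3 g4 g5
  have e1 : ∑ i ∈ J K T, |P.X T i R - R| ^ (q + 1) ≤
      ∑ i ∈ J K T, (P.X T i R ^ (q + 1) - (R : ℝ) ^ (q + 1) -
        ((q + 1 : ℕ) : ℝ) * (R : ℝ) ^ (q + 1 - 1) * (P.X T i R - R)) := by
    apply sum_le_sum
    intro i _
    apply convex_ineq _ _ (Nat.cast_nonneg _) hRr.le
    omega
  have e2 : ∑ i ∈ J K T, (P.X T i R ^ (q + 1) - (R : ℝ) ^ (q + 1) -
        ((q + 1 : ℕ) : ℝ) * (R : ℝ) ^ (q + 1 - 1) * (P.X T i R - R)) =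
      ∑ i ∈ J K T, P.X T i R ^ (q + 1) + q * (R : ℝ) ^ (q + 1) * (J K T).card -
        (q + 1) * (R : ℝ) ^ (q + 1) * P.N T := by
    rw [sum_sub_distrib, sum_sub_distrib, sum_const, ← mul_sum, sum_sub_distrib, sum_const,
      P.sum_X R K hK g5]
    simp only [nsmul_eq_mul, Nat.add_sub_cancel]
    push_cast
    ring
  rw [e2] at e1
  refine e1.trans ?_
  set A : ℝ := ∑ i ∈ J K T, P.X T i R ^ (q + 1) with hA
  set Q : ℝ := (R : ℝ) ^ (q + 1) with hQ
  have hQ0 : 0 < Q := by rw [hQ]; positivity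
  have f1 : (1 - ε) * A ≤ (1 + ε) * Q * MM T :=
    g1.trans (mul_le_mul_of_nonneg_right h3.le g4.le)
  have f2 : A ≤ (1 + 4 * ε) * Q * MM T := by
    have hA' : (1 - ε) * A ≤ (1 - ε) * ((1 + 4 * ε) * Q * MM T) := by
      refine f1.trans ?_
      have : (1 + ε) ≤ (1 - ε) * (1 + 4 * ε) := by nlinarith
      have h8 : 0 ≤ Q * MM T := by positivity
      nlinarith
    exact le_of_mul_le_mul_left hA' (by linarith)
  have f3 : (q : ℝ) * Q * (J K T).card ≤ q * Q * ((1 + ε) * MM T) :=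
    mul_le_mul_of_nonneg_left g2 (by positivity)
  have f4 : ((q : ℝ) + 1) * Q * ((1 - ε) * MM T) ≤ (q + 1) * Q * P.N T :=
    mul_le_mul_of_nonneg_left g3 (by positivity)
  have f5 : ε * (2 * ((q : ℝ) + 1) + 3) * (Q * MM T) ≤ δ * (Q * MM T) :=
    mul_le_mul_of_nonneg_right hε2 (by positivity)
  nlinarith

/-- **One level down.** -/
theorem ustep (hl : l ≤ atTop) {r : ℕ} (h : P.Upper l (r + 1)) : P.Upper l r := by
  intro a b hab ε hε
  obtain ⟨b0, hb0⟩ : ∃ b0 : ℕ, ∀ i, -(b0 : ℝ) ≤ a i ∧ b i ≤ b0 := by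
    obtain ⟨B, hB⟩ : ∃ B : ℝ, ∀ i, |a i| ≤ B ∧ |b i| ≤ B := by
      refine ⟨∑ i, (|a i| + |b i|), fun i => ?_⟩
      have h1 : |a i| + |b i| ≤ ∑ i, (|a i| + |b i|) :=
        Finset.single_le_sum (f := fun i => |a i| + |b i|) (fun i _ => by positivity)
          (Finset.mem_univ i)
      constructor
      · linarith [abs_nonneg (b i)]
      · linarith [abs_nonneg (a i)]
    obtain ⟨n, hn⟩ := exists_nat_ge B
    refine ⟨n, fun i => ⟨?_, ?_⟩⟩
    · have := (hB i).1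
      have := neg_abs_le (a i)
      linarith
    · have := (hB i).2
      have := le_abs_self (b i)
      linarith
  have ha : ∀ i, -(b0 : ℝ) ≤ a i := fun i => (hb0 i).1
  have hb : ∀ i, b i ≤ b0 := fun i => (hb0 i).2
  set q : ℕ := r + 1 with hq
  set p : ℕ := q + 1 with hp
  set w : ℕ := 2 * b0 + 1 with hw
  -- the moment of the short windows
  obtain ⟨C1, hC1, hmom⟩ := umom_pow hl h (1 / 2) (by norm_num)
  set CW : ℝ := 2 * (w * ((w : ℝ) + 1) ^ q + C1) with hCW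
  have hCW0 : 0 ≤ CW := by positivity
  -- the parameters
  set θ : ℝ := ε / (8 * (CW + 1)) with hθ
  have hθ0 : 0 < θ := by positivity
  have hθ1 : θ * CW ≤ ε / 8 := by
    rw [hθ, div_mul_eq_mul_div, div_le_div_iff₀ (by positivity) (by norm_num)]
    nlinarith
  set δ : ℝ := ε * θ ^ q / (8 * (3 ^ p * (1 + 2 ^ p))) with hδ
  have hδ0 : 0 < δ := by positivity
  have hδ1 : 3 ^ p * ((1 + 2 ^ p) * δ) / θ ^ q ≤ ε / 8 := by
    rw [hδ]
    have : (3 : ℝ) ^ p * ((1 + 2 ^ p) * (ε * θ ^ q / (8 * (3 ^ p * (1 + 2 ^ p))))) / θ ^ q =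
        ε / 8 := by
      field_simp
    exact this.le
  obtain ⟨R0, hR0⟩ := uconc hl (by omega : 1 ≤ q) h δ hδ0
  -- the choice of `R`
  have hbox := (box_tendsto r a b ((b0 + 1 : ℕ) : ℝ)).comp tendsto_natCast_atTop_atTop
  rw [Metric.tendsto_nhds] at hbox
  have hbox' := hbox (ε / 4) (by positivity)
  have hsmall : Tendsto (fun R : ℕ => 3 ^ p * 2 / θ ^ q / (R : ℝ) ^ p) atTop (𝓝 0) := by
    apply Tendsto.div_atTop tendsto_const_nhds
    exact (tendsto_pow_atTop (by omega)).comp tendsto_natCast_atTop_atTop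
  have hsmall' := hsmall.eventually_le_const (show (0 : ℝ) < ε / 8 by positivity)
  obtain ⟨R, hR1, hR2, hR3, hR4⟩ : ∃ R : ℕ, R0 ≤ R - 1 ∧ 1 ≤ R ∧
      dist ((fun R : ℝ => (∫ u in Set.Icc (Fin.cons ((b0 + 1 : ℕ) : ℝ) a : Fin (r + 1) → ℝ)
        (Fin.cons (((b0 + 1 : ℕ) : ℝ) + R) b), kd (r + 1) u) / R) ((R : ℕ) : ℝ))
        (∫ u in Set.Icc a b, kd r u) < ε / 4 ∧
      3 ^ p * 2 / θ ^ q / (R : ℝ) ^ p ≤ ε / 8 := by
    have := (eventually_ge_atTop (R0 + 1)).and (hbox'.and hsmall')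
    obtain ⟨R, h1, h2, h3⟩ := this.exists
    exact ⟨R, by omega, by omega, h2, h3⟩
  have hRr : (0 : ℝ) < R := by exact_mod_cast hR2
  set K : ℕ := max (R + 1) (b0 + 1 + 1) with hK
  have hK1 : R + 1 ≤ K := le_max_left _ _
  have hK2 : b0 + 1 + 1 ≤ K := le_max_right _ _
  have g1 := hR0 (R - 1) hR1 K (by omega)
  have g2 := hR0 (R + 1) (by omega) K hK1
  have g3 := hmom w K
  have g4 : ∀ᶠ T in l, ((J K T).card : ℝ) ≤ (1 + 1) * MM T := hl (card_J_le K 1 one_pos)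
  have g5 : ∀ᶠ T in l, 0 < MM T := hl (MM_tendsto.eventually_gt_atTop 0)
  have g6 : ∀ᶠ T : ℝ in l, 1 < T := hl (eventually_gt_atTop 1)
  have g7 := h (Fin.cons ((b0 + 1 : ℕ) : ℝ) a) (Fin.cons (((b0 + 1 : ℕ) : ℝ) + R) b) (by
    intro i
    refine Fin.cases ?_ (fun i => ?_) i
    · rw [Fin.cons_zero, Fin.cons_zero]
      linarith
    · rw [Fin.cons_succ, Fin.cons_succ]
      exact hab i) (ε / 4) (by positivity)
  filter_upwards [g1, g2, g3, g4, g5, g6, g7] with T t1 t2 t3 t4 t5 t6 t7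
  have hcmp := compare (P := P) a b b0 ha hb R hR2 K hK2 t6 (θ * R) (by positivity)
  set S1 : ℝ := P.S (r + 1) (Fin.cons ((b0 + 1 : ℕ) : ℝ) a)
    (Fin.cons (((b0 + 1 : ℕ) : ℝ) + R) b) T with hS1
  set S0 : ℝ := P.S r a b T with hS0
  set I1 : ℝ := ∫ u in Set.Icc (Fin.cons ((b0 + 1 : ℕ) : ℝ) a : Fin (r + 1) → ℝ)
        (Fin.cons (((b0 + 1 : ℕ) : ℝ) + R) b), kd (r + 1) u with hI1
  set I0 : ℝ := ∫ u in Set.Icc a b, kd r u with hI0
  rw [Real.dist_eq] at hR3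
  -- the error
  have hR1' : ((R - 1 : ℕ) : ℝ) ≤ R := by exact_mod_cast Nat.sub_le R 1
  have hR2' : ((R + 1 : ℕ) : ℝ) ≤ 2 * R := by
    push_cast
    have : (1 : ℝ) ≤ R := by exact_mod_cast hR2
    linarith
  have u1 : ∑ i ∈ J K T, |P.X T i (R - 1) - ((R - 1 : ℕ) : ℝ)| ^ p ≤ δ * (R : ℝ) ^ p * MM T := by
    refine t1.trans ?_
    apply mul_le_mul_of_nonneg_right _ t5.le
    apply mul_le_mul_of_nonneg_left _ hδ0.le
    exact pow_le_pow_left₀ (Nat.cast_nonneg _) hR1' _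
  have u2 : ∑ i ∈ J K T, |P.X T i (R + 1) - ((R + 1 : ℕ) : ℝ)| ^ p ≤
      δ * (2 ^ p * (R : ℝ) ^ p) * MM T := by
    refine t2.trans ?_
    apply mul_le_mul_of_nonneg_right _ t5.le
    apply mul_le_mul_of_nonneg_left _ hδ0.le
    rw [← mul_pow]
    exact pow_le_pow_left₀ (Nat.cast_nonneg _) hR2' _
  have u3 : ∑ i ∈ J K T, P.X T i w ^ p ≤ CW * MM T := by
    have e : (1 - 1 / 2 : ℝ) * ∑ i ∈ J K T, P.X T i w ^ p ≤
      (w * ((w : ℝ) + 1) ^ q + C1) * MM T := t3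
    rw [hCW]
    linarith
  have hRp : (0 : ℝ) < (R : ℝ) ^ p := by positivity
  have u4 : |S1 - R * S0| ≤ R * MM T * (ε / 8 + ε / 8 + ε / 8) := by
    refine hcmp.trans ?_
    have v1 : θ * R * ∑ i ∈ J K T, P.X T i w ^ p ≤ R * MM T * (ε / 8) := by
      calc θ * R * ∑ i ∈ J K T, P.X T i w ^ p ≤ θ * R * (CW * MM T) :=
            mul_le_mul_of_nonneg_left u3 (by positivity)
        _ = R * MM T * (θ * CW) := by ring
        _ ≤ R * MM T * (ε / 8) := mul_le_mul_of_nonneg_left hθ1 (by positivity)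
    have v2 : 3 ^ p * (∑ i ∈ J K T, |P.X T i (R - 1) - ((R - 1 : ℕ) : ℝ)| ^ p +
        ∑ i ∈ J K T, |P.X T i (R + 1) - ((R + 1 : ℕ) : ℝ)| ^ p + (J K T).card) /
          (θ * R) ^ q ≤ R * MM T * (ε / 8 + ε / 8) := by
      rw [div_le_iff₀ (by positivity)]
      calc 3 ^ p * (∑ i ∈ J K T, |P.X T i (R - 1) - ((R - 1 : ℕ) : ℝ)| ^ p +
          ∑ i ∈ J K T, |P.X T i (R + 1) - ((R + 1 : ℕ) : ℝ)| ^ p + (J K T).card)
          ≤ 3 ^ p * (δ * (R : ℝ) ^ p * MM T + δ * (2 ^ p * (R : ℝ) ^ p) * MM T +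
            (1 + 1) * MM T) := by
            apply mul_le_mul_of_nonneg_left _ (by positivity)
            linarith
        _ = R * MM T * (3 ^ p * ((1 + 2 ^ p) * δ) / θ ^ q + 3 ^ p * 2 / θ ^ q / (R : ℝ) ^ p) *
            (θ * R) ^ q := by
            have e1 : (R : ℝ) ^ p = (R : ℝ) ^ q * R := by rw [hp, pow_succ]
            rw [mul_pow, e1]
            field_simp
            ring
        _ ≤ R * MM T * (ε / 8 + ε / 8) * (θ * R) ^ q := by
            apply mul_le_mul_of_nonneg_right _ (by positivity)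
            apply mul_le_mul_of_nonneg_left _ (by positivity)
            linarith
    calc _ ≤ R * MM T * (ε / 8) + R * MM T * (ε / 8 + ε / 8) := add_le_add v1 v2
      _ = _ := by ring
  have u5 : |S1 / (R * MM T) - S0 / MM T| ≤ ε / 8 + ε / 8 + ε / 8 := by
    have e : S1 / (R * MM T) - S0 / MM T = (S1 - R * S0) / (R * MM T) := by
      field_simp
    rw [e, abs_div, abs_of_pos (show 0 < R * MM T by positivity), div_le_iff₀ (by positivity)]
    linarith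
  have u6 : S1 / (R * MM T) ≤ I1 / R + ε / 4 := by
    have e : S1 / (R * MM T) = (S1 / MM T) / R := by
      field_simp
    rw [e, div_le_iff₀ hRr]
    have h1 : (1 : ℝ) ≤ R := by exact_mod_cast hR2
    have h2 : (I1 / R + ε / 4) * R = I1 + ε / 4 * R := by field_simp
    rw [h2]
    nlinarith
  have u7 := abs_le.mp u5
  have u8 := abs_lt.mp hR3
  linarith [u7.1, u8.2]

/-- the upper halves descend -/
theorem udescend (hl : l ≤ atTop) {s r : ℕ} (hsr : s ≤ r) (h : P.Upper l r) : P.Upper l s := by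
  induction r, hsr using Nat.le_induction with
  | base => exact h
  | succ r _ ih => exact ih (ustep hl h)

end PD

end Pool.Agent.H19.HL
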